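import Pool.Agent.Lib.MP_c77da8_nt.SZ.Inc

/-!
# SZ-Sz: density Hales-Jewett for all alphabets, Szemerédi's theorem

PROOF.  `dhj_unit`: `N = 1`; `A` is not empty, so it contains the only point; the word constant `inr ()` is a line.
`dhj_equiv`: transport along `α ≃ β`.  `dhj_fin`: induction, `Fin (k+2) ≃ Option (Fin (k+1))`.
`szemeredi`: we may assume `k ≥ 1`.  `n₀` = the `N` of `DHJ (Fin k) (δ/2)` (and `n₀ ≥ 1`), `N = k n₀` divided by `δ/2`..:
let `n ≥ N`, `N ≥ 2 k n₀/δ`, `S ⊆ range n` with `#S ≥ δ n`.  For an integer `a` with `-k n₀ < a < n` let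
`A_a = {x : Fin n₀ → Fin k | a + ∑ x_i ∈ S}`.  Every pair `(x, s)`, `s ∈ S`, occurs for exactly one `a` in this range
(`0 ≤ ∑ x_i ≤ (k-1) n₀`), so `∑_a #A_a = k^n₀ #S ≥ δ n k^n₀`, and there are at most `n + k n₀` values `a`; so some `a` has
`dn A_a ≥ δ n/(n + k n₀) ≥ δ/2` (as `k n₀ ≤ δ n/2 ≤ n`).  A line in `A_a` with the variable at `d ≥ 1` coordinates gives
`b + j d ∈ S` for `j = 0, …, k-1` (`b = a +` the sum of the constants; `b ≥ 0` as `b ∈ S`).
(To avoid negative numbers shift: use `x ↦ ∑ (k - 1 - x_i)`..., or `a + ∑ x_i = s + k n₀` with natural numbers `a < n + k n₀`.)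
-/

set_option autoImplicit false

namespace Pool.SZ

open Finset

theorem dhj_unit (δ : ℝ) (hδ : 0 < δ) : DHJ Unit δ := by
  refine ⟨1, ?_⟩
  intro ι _ _ hN A hA
  have hne : A.Nonempty := by
    rw [Finset.nonempty_iff_ne_empty]
    rintro rfl
    have h0 : dn (∅ : Finset (ι → Unit)) = 0 := by simp [dn]
    rw [h0] at hA
    linarith
  obtain ⟨a, ha⟩ := hne
  refine ⟨fun _ => Sum.inr (), ?_, ?_⟩
  · intro e
    obtain ⟨i⟩ : Nonempty ι := Fintype.card_pos_iff.mp (by omega)
    exact ⟨i, rfl⟩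
  · intro z
    have h1 : ev (fun _ : ι => (Sum.inr () : Unit ⊕ Unit)) z = a := Subsingleton.elim _ _
    rw [h1]
    exact ha

theorem dhj_equiv {α β : Type} [Fintype α] [DecidableEq α] [Fintype β] [DecidableEq β] (e : α ≃ β)
    (δ : ℝ) (h : DHJ α δ) : DHJ β δ := by
  obtain ⟨N, hN⟩ := h
  refine ⟨N, ?_⟩
  intro ι _ _ hι B hB
  have hcard : (univ.filter fun x : ι → α => (fun i => e (x i)) ∈ B).card = B.card := by
    refine Finset.card_bij' (fun x _ => fun i => e (x i)) (fun y _ => fun i => e.symm (y i)) ?_ ?_ ?_ ?_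
    · intro x hx
      exact (mem_filter.mp hx).2
    · intro y hy
      refine mem_filter.mpr ⟨mem_univ _, ?_⟩
      have h1 : (fun i => e (e.symm (y i))) = y := by
        funext i
        exact e.apply_symm_apply _
      rw [h1]
      exact hy
    · intro x _
      funext i
      exact e.symm_apply_apply _
    · intro y _
      funext i
      exact e.apply_symm_apply _
  have hnn : nn α ι = nn β ι := by
    unfold nn
    rw [Fintype.card_congr (Equiv.arrowCongr (Equiv.refl ι) e)]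
  have hd : δ ≤ dn (univ.filter fun x : ι → α => (fun i => e (x i)) ∈ B) := by
    unfold dn
    rw [hcard, hnn]
    exact hB
  obtain ⟨W, hW, hWA⟩ := hN ι hι _ hd
  refine ⟨fun i => Sum.map e id (W i), ?_, ?_⟩
  · intro u
    obtain ⟨i, hi⟩ := hW u
    refine ⟨i, ?_⟩
    simp only [hi]
    rfl
  · intro z
    have h1 := (mem_filter.mp (hWA fun u => e.symm (z u))).2
    have h2 : (fun i => e (ev W (fun u => e.symm (z u)) i)) = ev (fun i => Sum.map e id (W i)) z := by
      funext i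
      show e (Sum.elim id (fun u => e.symm (z u)) (W i)) = Sum.elim id z (Sum.map e id (W i))
      cases W i with
      | inl a => rfl
      | inr u => exact e.apply_symm_apply _
    rw [← h2]
    exact h1

/-- **The density Hales-Jewett theorem** (Furstenberg and Katznelson). -/
theorem dhj_fin (k : ℕ) : ∀ δ : ℝ, 0 < δ → DHJ (Fin (k + 1)) δ := by
  induction k with
  | zero =>
    intro δ hδ
    exact dhj_equiv (Equiv.ofUnique Unit (Fin 1)) δ (dhj_unit δ hδ)
  | succ k ih =>
    intro δ hδ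
    exact dhj_equiv (finSuccEquiv (k + 1)).symm δ (dhj_option (Fin (k + 1)) ih δ hδ)

/-- **Szemerédi's theorem.** -/
theorem szemeredi (k : ℕ) (δ : ℝ) (hδ : 0 < δ) : ∃ N : ℕ, ∀ n : ℕ, N ≤ n →
    ∀ S : Finset ℕ, S ⊆ range n → δ * n ≤ S.card → ∃ a d : ℕ, 1 ≤ d ∧ ∀ j < k, a + j * d ∈ S := by
  rcases k with _ | k
  · exact ⟨0, fun n _ S _ _ => ⟨0, 1, le_refl _, fun j hj => absurd hj (Nat.not_lt_zero j)⟩⟩
  obtain ⟨n₀, hn₀⟩ := dhj_fin k (δ / 2) (by linarith)
  have hsum : ∀ x : Fin n₀ → Fin (k + 1), ∑ i, (x i : ℕ) ≤ k * n₀ := by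
    intro x
    have h1 : ∑ i, (x i : ℕ) ≤ ∑ _i : Fin n₀, k :=
      Finset.sum_le_sum fun i _ => Nat.lt_succ_iff.mp (x i).2
    simp only [sum_const, card_univ, Fintype.card_fin, smul_eq_mul] at h1
    rw [Nat.mul_comm k n₀]
    exact h1
  refine ⟨k * n₀ + 1, ?_⟩
  intro n hn S hS hc
  set K : ℕ := k * n₀ with hK
  -- the sets of the points that give elements of `S`
  let A : ℕ → Finset (Fin n₀ → Fin (k + 1)) := fun a =>
    univ.filter fun x => ∃ s ∈ S, a + ∑ i, (x i : ℕ) = s + K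
  -- double counting
  have hdc : ∑ a ∈ range (n + K), (A a).card = Fintype.card (Fin n₀ → Fin (k + 1)) * S.card := by
    have h1 : ∀ x : Fin n₀ → Fin (k + 1),
        ((range (n + K)).filter fun a => ∃ s ∈ S, a + ∑ i, (x i : ℕ) = s + K).card = S.card := by
      intro x
      have hx := hsum x
      refine Finset.card_bij' (fun a _ => a + ∑ i, (x i : ℕ) - K) (fun s _ => s + K - ∑ i, (x i : ℕ))
        ?_ ?_ ?_ ?_
      · intro a ha
        obtain ⟨s, hs, hs2⟩ := (mem_filter.mp ha).2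
        have h2 : a + ∑ i, (x i : ℕ) - K = s := by omega
        rw [h2]
        exact hs
      · intro s hs
        have h2 := mem_range.mp (hS hs)
        refine mem_filter.mpr ⟨mem_range.mpr (by omega), s, hs, by omega⟩
      · intro a ha
        obtain ⟨s, hs, hs2⟩ := (mem_filter.mp ha).2
        omega
      · intro s hs
        omega
    have h2 : ∀ a, (A a).card = ∑ x : Fin n₀ → Fin (k + 1),
        if (∃ s ∈ S, a + ∑ i, (x i : ℕ) = s + K) then 1 else 0 := by
      intro a
      exact Finset.card_filter _ _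
    simp only [h2]
    rw [Finset.sum_comm]
    have h3 : ∀ x : Fin n₀ → Fin (k + 1), (∑ a ∈ range (n + K),
        if (∃ s ∈ S, a + ∑ i, (x i : ℕ) = s + K) then 1 else 0) = S.card := by
      intro x
      rw [← Finset.card_filter]
      exact h1 x
    rw [Finset.sum_congr rfl fun x _ => h3 x]
    simp only [sum_const, card_univ, smul_eq_mul]
  have hnnpos : 0 < nn (Fin (k + 1)) (Fin n₀) := by
    unfold nn
    exact_mod_cast Fintype.card_pos
  -- some set is dense
  have hex : ∃ a, δ / 2 ≤ dn (A a) := by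
    by_contra hcon
    push Not at hcon
    have h1 : ∑ a ∈ range (n + K), dn (A a) < ∑ _a ∈ range (n + K), δ / 2 := by
      refine Finset.sum_lt_sum_of_nonempty ?_ fun a _ => hcon a
      refine ⟨0, mem_range.mpr (by omega)⟩
    have h2 : ∑ a ∈ range (n + K), dn (A a) = (S.card : ℝ) := by
      unfold dn
      rw [← Finset.sum_div, div_eq_iff hnnpos.ne']
      unfold nn
      rw [mul_comm]
      exact_mod_cast hdc
    rw [h2] at h1
    simp only [sum_const, card_range, nsmul_eq_mul] at h1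
    push_cast at h1
    have h3 : (K : ℝ) + 1 ≤ (n : ℝ) := by exact_mod_cast hn
    nlinarith
  obtain ⟨a, ha⟩ := hex
  obtain ⟨W, hW, hWA⟩ := hn₀ (Fin n₀) (by simp) (A a) ha
  -- the constants and the number of the variable coordinates
  have hev : ∀ j : Fin (k + 1), ∑ i, ((ev W (fun _ => j) i : Fin (k + 1)) : ℕ) =
      (∑ i, Sum.elim (fun c : Fin (k + 1) => (c : ℕ)) (fun _ => 0) (W i)) +
        j * ∑ i, Sum.elim (fun _ => 0) (fun _ => 1) (W i) := by
    intro j
    rw [Finset.mul_sum, ← Finset.sum_add_distrib]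
    refine Finset.sum_congr rfl fun i _ => ?_
    unfold ev
    cases W i with
    | inl c => simp
    | inr u => simp
  have hmem : ∀ j : Fin (k + 1), ∃ s ∈ S,
      a + ((∑ i, Sum.elim (fun c : Fin (k + 1) => (c : ℕ)) (fun _ => 0) (W i)) +
        j * ∑ i, Sum.elim (fun _ => 0) (fun _ => 1) (W i)) = s + K := by
    intro j
    have h1 := (mem_filter.mp (hWA fun _ => j)).2
    rw [hev j] at h1
    exact h1
  obtain ⟨s₀, hs₀, hs₀2⟩ := hmem 0
  refine ⟨s₀, ∑ i, Sum.elim (fun _ => 0) (fun _ => 1) (W i), ?_, ?_⟩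
  · obtain ⟨i, hi⟩ := hW ()
    have h1 : Sum.elim (fun _ : Fin (k + 1) => 0) (fun _ : Unit => 1) (W i) = 1 := by
      rw [hi]
      rfl
    calc 1 = Sum.elim (fun _ : Fin (k + 1) => 0) (fun _ : Unit => 1) (W i) := h1.symm
      _ ≤ _ := Finset.single_le_sum (f := fun i => Sum.elim (fun _ : Fin (k + 1) => 0)
          (fun _ : Unit => 1) (W i)) (fun _ _ => Nat.zero_le _) (mem_univ i)
  · intro j hj
    obtain ⟨s, hs, hs2⟩ := hmem ⟨j, hj⟩
    simp only [Fin.val_zero, zero_mul, add_zero] at hs₀2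
    simp only at hs2
    have h1 : s₀ + j * ∑ i, Sum.elim (fun _ : Fin (k + 1) => 0) (fun _ : Unit => 1) (W i) = s := by
      omega
    rw [h1]
    exact hs

end Pool.SZ
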