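import Pool.Agent.Lib.MP_c77da8_nt.SZ.Defs

/-!
# SZ-Bas: basic facts

PROOF.  `sum_split`: `Equiv.sumArrowEquivProdArrow`.  `nn_split`: cardinalities.  `dn_secR`, `dn_secL`: `sum_split` for
the indicator of `A`.  `many`: the sum over the `b` with `f b < δ/2` is at most `δ/2 * card`.  `pig`: pigeonhole
(`Finset.card_eq_sum_card_fiberwise`).  `split_type`: `ι₂ = Fin (card ι - card ι₁)`, `Fintype.equivOfCardEq`.
`reidx`: transport a subspace along `e` (`W ∘ e`).  The others are immediate: extend a subspace of a section by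
constant coordinates.
-/

set_option autoImplicit false

namespace Pool.SZ

open Finset

variable {α ι κ η θ β γ : Type} [Fintype α] [DecidableEq α] [Fintype ι] [DecidableEq ι] [Fintype κ]
  [DecidableEq κ] [Fintype β] [DecidableEq β] [Fintype γ] [DecidableEq γ]

theorem sum_split (f : (ι ⊕ κ → α) → ℝ) : ∑ x, f x = ∑ x : ι → α, ∑ t : κ → α, f (Sum.elim x t) := by
  rw [← Fintype.sum_prod_type' (fun (x : ι → α) (t : κ → α) => f (Sum.elim x t))]
  refine Fintype.sum_equiv (Equiv.sumArrowEquivProdArrow ι κ α) _ _ fun x => ?_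
  congr 1
  funext i
  cases i <;> rfl

theorem nn_split : nn α (ι ⊕ κ) = nn α ι * nn α κ := by
  unfold nn
  rw [← Nat.cast_mul, ← Fintype.card_prod]
  exact congrArg _ (Fintype.card_congr (Equiv.sumArrowEquivProdArrow ι κ α))

theorem nn_pos [Nonempty α] : 0 < nn α ι := by
  unfold nn
  exact Nat.cast_pos.2 Fintype.card_pos

theorem dn_nonneg (A : Finset (ι → α)) : 0 ≤ dn A := by
  unfold dn nn
  exact div_nonneg (Nat.cast_nonneg _) (Nat.cast_nonneg _)

theorem dn_le_one (A : Finset (ι → α)) : dn A ≤ 1 := by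
  unfold dn nn
  exact div_le_one_of_le₀ (Nat.cast_le.2 (Finset.card_le_univ A)) (Nat.cast_nonneg _)

theorem dn_secR [Nonempty α] (A : Finset (ι ⊕ κ → α)) : ∑ t, dn (secR A t) = dn A * nn α κ := by
  have h1 : ∑ t : κ → α, ((secR A t).card : ℝ) = (A.card : ℝ) := by
    have h2 : ∀ t : κ → α, ((secR A t).card : ℝ) = ∑ x : ι → α, if Sum.elim x t ∈ A then (1 : ℝ) else 0 := by
      intro t
      unfold secR
      rw [Finset.sum_boole]
    rw [Finset.sum_congr rfl fun t _ => h2 t, Finset.sum_comm,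
      ← sum_split (fun x : ι ⊕ κ → α => if x ∈ A then (1 : ℝ) else 0), Finset.sum_boole]
    simp
  unfold dn
  rw [← Finset.sum_div, h1, nn_split]
  have h3 : nn α ι ≠ 0 := ne_of_gt nn_pos
  have h4 : nn α κ ≠ 0 := ne_of_gt nn_pos
  field_simp

theorem dn_secL [Nonempty α] (A : Finset (ι ⊕ κ → α)) : ∑ x, dn (secL A x) = dn A * nn α ι := by
  have h1 : ∑ x : ι → α, ((secL A x).card : ℝ) = (A.card : ℝ) := by
    have h2 : ∀ x : ι → α, ((secL A x).card : ℝ) = ∑ t : κ → α, if Sum.elim x t ∈ A then (1 : ℝ) else 0 := by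
      intro x
      unfold secL
      rw [Finset.sum_boole]
    rw [Finset.sum_congr rfl fun x _ => h2 x,
      ← sum_split (fun x : ι ⊕ κ → α => if x ∈ A then (1 : ℝ) else 0), Finset.sum_boole]
    simp
  unfold dn
  rw [← Finset.sum_div, h1, nn_split]
  have h3 : nn α ι ≠ 0 := ne_of_gt nn_pos
  have h4 : nn α κ ≠ 0 := ne_of_gt nn_pos
  field_simp

theorem many (f : β → ℝ) (h1 : ∀ b, f b ≤ 1) (δ : ℝ) (hδ : 0 ≤ δ)
    (h : δ * (Fintype.card β : ℝ) ≤ ∑ b, f b) :
    δ / 2 * (Fintype.card β : ℝ) ≤ ((univ.filter fun b => δ / 2 ≤ f b).card : ℝ) := by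
  have h2 : ∑ b, f b = ∑ b ∈ univ.filter (fun b => δ / 2 ≤ f b), f b
      + ∑ b ∈ univ.filter (fun b => ¬ δ / 2 ≤ f b), f b :=
    (Finset.sum_filter_add_sum_filter_not univ (fun b => δ / 2 ≤ f b) f).symm
  have h3 : ∑ b ∈ univ.filter (fun b => δ / 2 ≤ f b), f b
      ≤ ((univ.filter fun b => δ / 2 ≤ f b).card : ℝ) := by
    calc ∑ b ∈ univ.filter (fun b => δ / 2 ≤ f b), f b
        ≤ ∑ b ∈ univ.filter (fun b => δ / 2 ≤ f b), (1 : ℝ) := Finset.sum_le_sum fun b _ => h1 b
      _ = ((univ.filter fun b => δ / 2 ≤ f b).card : ℝ) := by simp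
  have h4 : ∑ b ∈ univ.filter (fun b => ¬ δ / 2 ≤ f b), f b ≤ δ / 2 * (Fintype.card β : ℝ) := by
    calc ∑ b ∈ univ.filter (fun b => ¬ δ / 2 ≤ f b), f b
        ≤ ∑ b ∈ univ.filter (fun b => ¬ δ / 2 ≤ f b), δ / 2 := by
          refine Finset.sum_le_sum fun b hb => ?_
          exact le_of_lt (not_le.1 (Finset.mem_filter.1 hb).2)
      _ = ((univ.filter fun b => ¬ δ / 2 ≤ f b).card : ℝ) * (δ / 2) := by
          rw [Finset.sum_const, nsmul_eq_mul]
      _ ≤ (Fintype.card β : ℝ) * (δ / 2) := by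
          refine mul_le_mul_of_nonneg_right (Nat.cast_le.2 (Finset.card_le_univ _)) (by linarith)
      _ = δ / 2 * (Fintype.card β : ℝ) := mul_comm _ _
  linarith

theorem pig [Nonempty γ] (B : Finset β) (φ : β → γ) :
    ∃ c, (B.card : ℝ) ≤ (Fintype.card γ : ℝ) * ((B.filter fun b => φ b = c).card : ℝ) := by
  by_contra hc
  have hc' : ∀ c, (Fintype.card γ : ℝ) * ((B.filter fun b => φ b = c).card : ℝ) < (B.card : ℝ) :=
    fun c => not_le.1 fun h => hc ⟨c, h⟩
  have h1 : ((B.card : ℕ) : ℝ) = ∑ c : γ, ((B.filter fun b => φ b = c).card : ℝ) := by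
    rw [← Nat.cast_sum]
    exact congrArg _ (Finset.card_eq_sum_card_fiberwise (f := φ) (t := univ) fun b _ => by simp)
  have h2 : ∑ c : γ, (Fintype.card γ : ℝ) * ((B.filter fun b => φ b = c).card : ℝ)
      < ∑ _c : γ, (B.card : ℝ) :=
    Finset.sum_lt_sum_of_nonempty Finset.univ_nonempty fun c _ => hc' c
  rw [← Finset.mul_sum, ← h1, Finset.sum_const, nsmul_eq_mul, Finset.card_univ] at h2
  exact lt_irrefl _ h2

theorem split_type (n : ℕ) (h : Fintype.card κ + n ≤ Fintype.card ι) :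
    ∃ (ι₂ : Type) (_ : Fintype ι₂) (_ : DecidableEq ι₂) (_ : κ ⊕ ι₂ ≃ ι), n ≤ Fintype.card ι₂ := by
  refine ⟨Fin (Fintype.card ι - Fintype.card κ), inferInstance, inferInstance, ?_, ?_⟩
  · refine Fintype.equivOfCardEq ?_
    rw [Fintype.card_sum, Fintype.card_fin]
    omega
  · rw [Fintype.card_fin]
    omega

theorem reidx (e : κ ≃ ι) (A : Finset (ι → α))
    (h : HasSub η (univ.filter fun x : κ → α => (fun i => x (e.symm i)) ∈ A)) : HasSub η A := by
  obtain ⟨W, hW, hz⟩ := h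
  refine ⟨fun i => W (e.symm i), ?_, ?_⟩
  · intro d
    obtain ⟨i, hi⟩ := hW d
    exact ⟨e i, by simpa using hi⟩
  · intro z
    exact (Finset.mem_filter.1 (hz z)).2

theorem dn_reidx (e : κ ≃ ι) (A : Finset (ι → α)) :
    dn (univ.filter fun x : κ → α => (fun i => x (e.symm i)) ∈ A) = dn A := by
  have h1 : (univ.filter fun x : κ → α => (fun i => x (e.symm i)) ∈ A).card = A.card := by
    refine Finset.card_bij (fun x _ i => x (e.symm i)) ?_ ?_ ?_
    · intro x hx
      exact (Finset.mem_filter.1 hx).2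
    · intro x _ y _ h
      funext k
      have := congrFun h (e k)
      simpa using this
    · intro y hy
      refine ⟨fun k => y (e k), ?_, ?_⟩
      · simp only [mem_filter, mem_univ, true_and, Equiv.apply_symm_apply]
        exact hy
      · funext i
        simp
  unfold dn
  rw [h1]
  have h2 : nn α κ = nn α ι := by
    unfold nn
    exact congrArg _ (Fintype.card_congr (Equiv.arrowCongr e (Equiv.refl α)))
  rw [h2]

theorem sub_secR (A : Finset (ι ⊕ κ → α)) (t : κ → α) (h : HasSub η (secR A t)) : HasSub η A := by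
  obtain ⟨W, hW, hz⟩ := h
  refine ⟨Sum.elim W fun k => Sum.inl (t k), ?_, ?_⟩
  · intro d
    obtain ⟨i, hi⟩ := hW d
    exact ⟨Sum.inl i, hi⟩
  · intro z
    have h1 := (Finset.mem_filter.1 (hz z)).2
    have h2 : ev (Sum.elim W fun k => Sum.inl (t k)) z = Sum.elim (ev W z) t := by
      funext i
      cases i <;> rfl
    rw [h2]
    exact h1

theorem sub_secL (A : Finset (ι ⊕ κ → α)) (x : ι → α) (h : HasSub η (secL A x)) : HasSub η A := by
  obtain ⟨W, hW, hz⟩ := h
  refine ⟨Sum.elim (fun i => Sum.inl (x i)) W, ?_, ?_⟩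
  · intro d
    obtain ⟨i, hi⟩ := hW d
    exact ⟨Sum.inr i, hi⟩
  · intro z
    have h1 := (Finset.mem_filter.1 (hz z)).2
    have h2 : ev (Sum.elim (fun i => Sum.inl (x i)) W) z = Sum.elim x (ev W z) := by
      funext i
      cases i <;> rfl
    rw [h2]
    exact h1

theorem sub_comp [Fintype θ] [DecidableEq θ] (A : Finset (ι → α)) (W : ι → α ⊕ θ) (hW : Pr W)
    (h : HasSub η (univ.filter fun z : θ → α => ev W z ∈ A)) : HasSub η A := by
  obtain ⟨U, hU, hz⟩ := h
  refine ⟨cmp W U, pr_cmp W U hW hU, fun z => ?_⟩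
  rw [ev_cmp]
  exact (Finset.mem_filter.1 (hz z)).2

theorem DHJ_mono (δ δ' : ℝ) (h : δ ≤ δ') (hd : DHJ α δ) : DHJ α δ' := by
  obtain ⟨N, hN⟩ := hd
  refine ⟨N, fun ι _ _ hι A hA => hN ι hι A (h.trans hA)⟩

end Pool.SZ
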