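import Pool.Agent.Lib.MP_c77da8_nt.SZ.Defs

/-!
# SZ-ColA: colourings of the words with one variable, first reduction (Hales-Jewett)

PROOF.  Induction on `M`, for all `κ`.  `M = 0`: `ι = Empty` (or `PEmpty`/`Fin 0`), `V` the empty word; `Fin 0 → _` has one
element.  `M + 1`: by Hales-Jewett (`Combinatorics.Line.exists_mono_in_high_dimension` for the alphabet `α` and the colours
`(Fin M → Bool) → κ`) choose `ι₁`; then the induction hypothesis for the colours `(ι₁ → α ⊕ Unit) → κ` gives `ι₂`; take
`ι = ι₁ ⊕ ι₂`.  Given `c`: the colouring of `ι₂ → α ⊕ Unit` by `y ↦ (x ↦ c (Sum.elim x y))` gives `V₂ : ι₂ → α ⊕ Fin M`; for a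
pattern `S : Fin M → Bool` let `l_S` be the word with `inr ()` at the `e` with `S e = true`, `inl a₀` elsewhere (if `α` is
empty the case is trivial: then only the all-`inr ()` word exists; one may assume `Nonempty α`).  Colour `x : ι₁ → α` by
`S ↦ c (Sum.elim (inl ∘ x) (cmp V₂ l_S))`; a monochromatic line `V₁` (a word `ι₁ → Option α`, `none` = the variable).
`V` = (`V₁` with the variable `inr 0`; `V₂` with the directions `inr e.succ`).  Check: for `l : Fin (M+1) → α ⊕ Unit` the
colour `c (cmp V l)` only depends on whether `l 0 = inr ()` and on the pattern of `l ∘ succ`.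
-/

set_option autoImplicit false

namespace Pool.SZ

open Finset

theorem color_wild (α : Type) [Fintype α] [DecidableEq α] [Nonempty α] (M : ℕ) :
    ∀ (κ : Type) [Finite κ], ∃ (ι : Type) (_ : Fintype ι) (_ : DecidableEq ι),
      ∀ c : (ι → α ⊕ Unit) → κ, ∃ V : ι → α ⊕ Fin M, Pr V ∧
        ∀ l l' : Fin M → α ⊕ Unit, (∀ e, l e = Sum.inr () ↔ l' e = Sum.inr ()) →
          c (cmp V l) = c (cmp V l') := by
  classical
  induction M with
  | zero =>
    intro κ _
    refine ⟨Fin 0, inferInstance, inferInstance, fun c => ⟨fun i => i.elim0, fun e => e.elim0, ?_⟩⟩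
    intro l l' _
    rw [Subsingleton.elim l l']
  | succ M ih =>
    intro κ _
    obtain ⟨ι₁, f₁, h₁⟩ :=
      Combinatorics.Line.exists_mono_in_high_dimension α ((Fin M → Bool) → κ)
    obtain ⟨ι₂, f₂, d₂, h₂⟩ := ih ((ι₁ → α ⊕ Unit) → κ)
    refine ⟨ι₁ ⊕ ι₂, inferInstance, Classical.decEq _, fun c => ?_⟩
    obtain ⟨V₂, hV₂, hh₂⟩ := h₂ (fun y x => c (Sum.elim x y))
    let a₀ : α := Classical.arbitrary α
    let w : (Fin M → Bool) → Fin M → α ⊕ Unit := fun S e => if S e = true then Sum.inr () else Sum.inl a₀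
    obtain ⟨l₁, col, hcol⟩ :=
      h₁ (fun x S => c (Sum.elim (fun i => Sum.inl (x i)) (cmp V₂ (w S))))
    let V : ι₁ ⊕ ι₂ → α ⊕ Fin (M + 1) :=
      Sum.elim (fun i => (l₁.idxFun i).elim (Sum.inr 0) Sum.inl) (fun j => Sum.map id Fin.succ (V₂ j))
    let X : (α ⊕ Unit) → ι₁ → α ⊕ Unit := fun z i => (l₁.idxFun i).elim z Sum.inl
    have hcmp : ∀ l : Fin (M + 1) → α ⊕ Unit,
        cmp V l = Sum.elim (X (l 0)) (cmp V₂ (fun e => l e.succ)) := by
      intro l
      funext k
      rcases k with i | j
      · simp only [cmp, V, X, Sum.elim_inl]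
        cases l₁.idxFun i <;> rfl
      · simp only [cmp, V, Sum.elim_inr]
        cases V₂ j <;> rfl
    refine ⟨V, ?_, ?_⟩
    · intro e
      refine Fin.cases ?_ (fun e' => ?_) e
      · obtain ⟨i, hi⟩ := l₁.proper
        exact ⟨Sum.inl i, by simp [V, hi]⟩
      · obtain ⟨j, hj⟩ := hV₂ e'
        exact ⟨Sum.inr j, by simp [V, hj]⟩
    · intro l l' hl
      have key : ∀ (m : Fin (M + 1) → α ⊕ Unit) (S : Fin M → Bool),
          (∀ e, m e.succ = Sum.inr () ↔ S e = true) →
          c (cmp V m) = c (Sum.elim (X (m 0)) (cmp V₂ (w S))) := by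
        intro m S hS
        rw [hcmp]
        have h := hh₂ (fun e => m e.succ) (w S) (by
          intro e
          rw [hS e]
          simp only [w]
          by_cases h : S e = true
          · simp [h]
          · simp [h])
        exact congrFun h (X (m 0))
      let S : Fin M → Bool := fun e => decide (l e.succ = Sum.inr ())
      have hS : ∀ e, l e.succ = Sum.inr () ↔ S e = true := fun e => by simp [S]
      have hS' : ∀ e, l' e.succ = Sum.inr () ↔ S e = true := fun e => by
        rw [← hS e]; exact (hl e.succ).symm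
      rw [key l S hS, key l' S hS']
      rcases h0 : l 0 with a | u
      · rcases h0' : l' 0 with a' | u'
        · have hX : ∀ b : α, X (Sum.inl b) = fun i => Sum.inl (l₁ b i) := by
            intro b
            funext i
            simp only [X, Combinatorics.Line.apply_def]
            cases l₁.idxFun i <;> rfl
          rw [hX a, hX a']
          have e1 := congrFun (hcol a) S
          have e2 := congrFun (hcol a') S
          exact e1.trans e2.symm
        · exact absurd ((hl 0).2 h0') (by rw [h0]; exact Sum.inl_ne_inr)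
      · have : l' 0 = Sum.inr () := (hl 0).1 h0
        rw [this]

end Pool.SZ
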