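import Mathlib

/-!
# SZ-ColB: finite unions (Folkman)

PROOF.  `union_min` by induction on `M`: `M = 0` trivial.  `M + 1`: let `N'` be the number for `M`.  By the multidimensional
Hales-Jewett theorem for the alphabet `Bool` (`Combinatorics.Subspace.exists_mono_in_high_dimension_fin Bool κ (Fin N')`)
there is `n` such that every colouring of `Fin n → Bool` has a monochromatic `N'`-dimensional subspace.  Take `N = n + 1`.
Given `c` on `Finset (Fin (n+1))`, colour `x : Fin n → Bool` by `c (insert 0 {succ i | x i = true})`.  The monochromatic
subspace `V`: `B = {0} ∪ {succ i | V i = inl true}`, `E e = {succ i | V i = inr e}` (not empty), and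
`c (B ∪ ⋃_{e ∈ S} E e)` is the same for all `S ⊆ Fin N'`.  Apply the induction hypothesis to the colouring
`S ↦ c (⋃_{e ∈ S} E e)` of `Finset (Fin N')`: sets `D' j`, `j : Fin M`; `D 0 = B`, `D (succ j) = ⋃_{e ∈ D' j} E e`.
For `S` with `0 ∈ S` the colour of the union is the constant one, for `0 ∉ S` the induction hypothesis.
`fin_union`: `M = 2 m` and the colours `Bool`: among the `2m` numbers `j` with colour `c (D j)` there are `m` with the same
colour `b`; for a non-empty set `S` of those the colour of the union is the colour of its least element.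
-/

set_option autoImplicit false

namespace Pool.SZ

open Finset

theorem union_min (M : ℕ) (κ : Type) [Finite κ] : ∃ N : ℕ, ∀ c : Finset (Fin N) → κ,
    ∃ D : Fin M → Finset (Fin N), (∀ j, (D j).Nonempty) ∧ (∀ j j', j ≠ j' → Disjoint (D j) (D j')) ∧
      ∀ (S : Finset (Fin M)) (j : Fin M), j ∈ S → (∀ j' ∈ S, j ≤ j') →
        c (S.biUnion D) = c (D j) := by
  classical
  induction M with
  | zero =>
    exact ⟨0, fun c => ⟨fun j => j.elim0, fun j => j.elim0, fun j => j.elim0, fun S j => j.elim0⟩⟩
  | succ M ih =>
    obtain ⟨N', hN'⟩ := ih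
    obtain ⟨n, hn⟩ := Combinatorics.Subspace.exists_mono_in_high_dimension_fin Bool κ (Fin N')
    refine ⟨n + 1, fun c => ?_⟩
    obtain ⟨l, col, hl⟩ :=
      hn (fun x => c (univ.filter fun i => (Fin.cons true x : Fin (n + 1) → Bool) i = true))
    let idx : Fin (n + 1) → Bool ⊕ Fin N' := Fin.cons (Sum.inl true) l.idxFun
    let B : Finset (Fin (n + 1)) := univ.filter fun i => idx i = Sum.inl true
    let E : Fin N' → Finset (Fin (n + 1)) := fun e => univ.filter fun i => idx i = Sum.inr e
    have hi0 : idx 0 = Sum.inl true := rfl
    have his : ∀ j : Fin n, idx j.succ = l.idxFun j := fun j => rfl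
    have hB : ∀ i, i ∈ B ↔ idx i = Sum.inl true := fun i => by
      simp only [B, mem_filter, mem_univ, true_and]
    have hE : ∀ e i, i ∈ E e ↔ idx i = Sum.inr e := fun e i => by
      simp only [E, mem_filter, mem_univ, true_and]
    have hcol : ∀ T : Finset (Fin N'), c (B ∪ T.biUnion E) = col := by
      intro T
      rw [← hl fun e => decide (e ∈ T)]
      congr 1
      ext i
      rw [mem_union, mem_biUnion, hB, mem_filter]
      simp only [hE, mem_univ, true_and]
      refine Fin.cases ?_ (fun j => ?_) i
      · simp [hi0]
      · rw [his, Fin.cons_succ, Combinatorics.Subspace.coe_apply]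
        cases hj : l.idxFun j with
        | inl b => simp
        | inr e =>
          simp only [Sum.elim_inr, decide_eq_true_eq, reduceCtorEq, false_or, Sum.inr.injEq]
          constructor
          · rintro ⟨a, ha, hae⟩
            rw [hae]
            exact ha
          · intro he
            exact ⟨e, he, rfl⟩
    obtain ⟨D', hD1, hD2, hD3⟩ := hN' (fun S => c (S.biUnion E))
    let D : Fin (M + 1) → Finset (Fin (n + 1)) := Fin.cons B fun j => (D' j).biUnion E
    have hD0 : D 0 = B := rfl
    have hDs : ∀ j : Fin M, D j.succ = (D' j).biUnion E := fun j => rfl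
    have hBE : ∀ T : Finset (Fin N'), Disjoint B (T.biUnion E) := by
      intro T
      rw [Finset.disjoint_left]
      intro i hi hi'
      rw [mem_biUnion] at hi'
      obtain ⟨e, _, he⟩ := hi'
      rw [hB] at hi
      rw [hE, hi] at he
      exact absurd he (by simp)
    refine ⟨D, ?_, ?_, ?_⟩
    · intro j
      refine Fin.cases ?_ (fun j => ?_) j
      · exact ⟨0, (hB 0).mpr hi0⟩
      · obtain ⟨e, he⟩ := hD1 j
        obtain ⟨i, hi⟩ := l.proper e
        refine ⟨i.succ, ?_⟩
        rw [hDs, mem_biUnion]
        exact ⟨e, he, by rw [hE, his, hi]⟩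
    · intro j
      refine Fin.cases ?_ (fun j => ?_) j
      · intro j'
        refine Fin.cases ?_ (fun j' => ?_) j'
        · intro h
          exact absurd rfl h
        · intro _
          exact hBE _
      · intro j'
        refine Fin.cases ?_ (fun j' => ?_) j'
        · intro _
          exact (hBE _).symm
        · intro h
          have h1 : j ≠ j' := fun h2 => h (by rw [h2])
          have h3 := hD2 j j' h1
          rw [hDs, hDs, Finset.disjoint_left]
          intro i hi hi'
          rw [mem_biUnion] at hi hi'
          obtain ⟨e, he, hie⟩ := hi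
          obtain ⟨e', he', hie'⟩ := hi'
          rw [hE] at hie hie'
          have h4 : e = e' := by
            rw [hie] at hie'
            exact Sum.inr.inj hie'
          rw [← h4] at he'
          exact (Finset.disjoint_left.mp h3) he he'
    · intro S j hj hmin
      let S' : Finset (Fin M) := univ.filter fun j' => j'.succ ∈ S
      have hS' : ∀ j', j' ∈ S' ↔ j'.succ ∈ S := fun j' => by
        simp only [S', mem_filter, mem_univ, true_and]
      have hin : ∀ i, (∃ j' : Fin M, j'.succ ∈ S ∧ i ∈ (D' j').biUnion E) ↔
          i ∈ (S'.biUnion D').biUnion E := by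
        intro i
        constructor
        · rintro ⟨j', h1, h2⟩
          rw [mem_biUnion] at h2
          obtain ⟨e, he, hie⟩ := h2
          rw [mem_biUnion]
          exact ⟨e, mem_biUnion.mpr ⟨j', (hS' j').mpr h1, he⟩, hie⟩
        · intro h
          rw [mem_biUnion] at h
          obtain ⟨e, he, hie⟩ := h
          rw [mem_biUnion] at he
          obtain ⟨j', h1, h2⟩ := he
          exact ⟨j', (hS' j').mp h1, mem_biUnion.mpr ⟨e, h2, hie⟩⟩
      revert hj hmin
      refine Fin.cases ?_ (fun j => ?_) j
      · intro hj _
        have h1 : S.biUnion D = B ∪ (S'.biUnion D').biUnion E := by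
          ext i
          rw [mem_union, ← hin, mem_biUnion, Fin.exists_fin_succ]
          rw [hD0]
          simp only [hDs]
          constructor
          · rintro (⟨_, h⟩ | h)
            · exact Or.inl h
            · exact Or.inr h
          · rintro (h | h)
            · exact Or.inl ⟨hj, h⟩
            · exact Or.inr h
        have h2 : D 0 = B ∪ (∅ : Finset (Fin N')).biUnion E := by
          rw [Finset.biUnion_empty, Finset.union_empty, hD0]
        rw [h1, h2, hcol, hcol]
      · intro hj hmin
        have h0 : (0 : Fin (M + 1)) ∉ S := fun h => by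
          have h1 := hmin 0 h
          exact absurd h1 (by simp)
        have h1 : S.biUnion D = (S'.biUnion D').biUnion E := by
          ext i
          rw [← hin, mem_biUnion, Fin.exists_fin_succ]
          simp only [hDs]
          constructor
          · rintro (⟨h, _⟩ | h)
            · exact absurd h h0
            · exact h
          · intro h
            exact Or.inr h
        rw [h1, hDs]
        refine hD3 S' j ((hS' j).mpr hj) fun j' hj' => ?_
        have h2 := hmin j'.succ ((hS' j').mp hj')
        exact Fin.succ_le_succ_iff.mp h2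

theorem fin_union (m : ℕ) : ∃ N : ℕ, ∀ c : Finset (Fin N) → Bool,
    ∃ D : Fin m → Finset (Fin N), (∀ j, (D j).Nonempty) ∧ (∀ j j', j ≠ j' → Disjoint (D j) (D j')) ∧
      ∃ b : Bool, ∀ S : Finset (Fin m), S.Nonempty → c (S.biUnion D) = b := by
  classical
  obtain ⟨N, hN⟩ := union_min (2 * m) Bool
  refine ⟨N, fun c => ?_⟩
  obtain ⟨D, h1, h2, h3⟩ := hN c
  obtain ⟨b, hb⟩ : ∃ b : Bool, m ≤ (univ.filter fun j => c (D j) = b).card := by
    by_contra hcon
    push Not at hcon
    have h4 := hcon true
    have h5 := hcon false
    have h6 : (univ.filter fun j => c (D j) = true).card +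
        (univ.filter fun j => ¬ c (D j) = true).card = 2 * m := by
      rw [Finset.card_filter_add_card_filter_not]
      simp
    have h7 : (univ.filter fun j => ¬ c (D j) = true) = univ.filter fun j => c (D j) = false := by
      ext j
      simp
    rw [h7] at h6
    omega
  obtain ⟨s, hs, hsm⟩ := Finset.exists_subset_card_eq hb
  let em : Fin m ↪o Fin (2 * m) := s.orderEmbOfFin hsm
  have hem : ∀ j, c (D (em j)) = b := fun j =>
    (mem_filter.mp (hs (Finset.orderEmbOfFin_mem s hsm j))).2
  refine ⟨fun j => D (em j), fun j => h1 _, fun j j' hjj => h2 _ _ fun h => hjj (em.injective h),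
    b, fun S hS => ?_⟩
  have h4 : (S.biUnion fun j => D (em j)) = (S.image em).biUnion D := by
    rw [Finset.image_biUnion]
  rw [h4, h3 (S.image em) (em (S.min' hS)) (mem_image_of_mem _ (S.min'_mem hS)) ?_]
  · exact hem _
  · intro j' hj'
    rw [mem_image] at hj'
    obtain ⟨a, ha, rfl⟩ := hj'
    exact em.monotone (S.min'_le a ha)

end Pool.SZ
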