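import Pool.Agent.Lib.MP_c77da8_nt.SZ.ColA
import Pool.Agent.Lib.MP_c77da8_nt.SZ.ColB

/-!
# SZ-ColC: every 2-colouring of the lines has a subspace all of whose lines have one colour

PROOF.  `N` from `fin_union m`, `ι` from `color_wild α N Bool`.  Given `c`: `V : ι → α ⊕ Fin N`.  Colour
`T : Finset (Fin N)` by `c (cmp V l_T)`, `l_T e = inr ()` for `e ∈ T`, `inl a₀` otherwise.  `fin_union` gives `D j`, `b`.
`U : Fin N → α ⊕ Fin m`, `U e = inr j` if `e ∈ D j`, `inl a₀` if `e` lies in no `D j` (`Pr U` as the `D j` are disjoint and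
not empty).  The subspace `cmp V U` works: for `l : Fin m → α ⊕ Unit` with `Pr l`, the word `cmp U l` has `inr ()` exactly
at the elements of `⋃_{j ∈ S} D j`, `S = {j | l j = inr ()} ≠ ∅`, and `cmp (cmp V U) l = cmp V (cmp U l)`.
-/

set_option autoImplicit false

namespace Pool.SZ

open Finset

theorem grl (α : Type) [Fintype α] [DecidableEq α] [Nonempty α] (m : ℕ) :
    ∃ (ι : Type) (_ : Fintype ι) (_ : DecidableEq ι),
      ∀ c : (ι → α ⊕ Unit) → Bool, ∃ V : ι → α ⊕ Fin m, Pr V ∧
        ∃ b : Bool, ∀ l : Fin m → α ⊕ Unit, Pr l → c (cmp V l) = b := by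
  classical
  obtain ⟨N, hN⟩ := fin_union m
  obtain ⟨ι, f, d, hι⟩ := color_wild α N Bool
  refine ⟨ι, f, d, fun c => ?_⟩
  obtain ⟨V, hV, hc⟩ := hι c
  let a₀ : α := Classical.arbitrary α
  let w : Finset (Fin N) → Fin N → α ⊕ Unit := fun T e => if e ∈ T then Sum.inr () else Sum.inl a₀
  obtain ⟨D, hD, hdis, b, hb⟩ := hN (fun T => c (cmp V (w T)))
  let U : Fin N → α ⊕ Fin m := fun e => if h : ∃ j, e ∈ D j then Sum.inr h.choose else Sum.inl a₀
  have hU1 : ∀ j e, e ∈ D j → U e = Sum.inr j := by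
    intro j e he
    have h : ∃ j, e ∈ D j := ⟨j, he⟩
    have hs := h.choose_spec
    simp only [U, dif_pos h]
    congr 1
    by_contra hne
    exact Finset.disjoint_left.1 (hdis _ _ hne) hs he
  have hU2 : ∀ e, (∀ j, e ∉ D j) → U e = Sum.inl a₀ := by
    intro e he
    have h : ¬ ∃ j, e ∈ D j := fun ⟨j, hj⟩ => he j hj
    simp only [U, dif_neg h]
  refine ⟨cmp V U, pr_cmp V U hV ?_, b, ?_⟩
  · intro j
    obtain ⟨e, he⟩ := hD j
    exact ⟨e, hU1 j e he⟩
  · intro l hl
    have hassoc : cmp (cmp V U) l = cmp V (cmp U l) := by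
      funext i
      unfold cmp
      cases V i <;> rfl
    rw [hassoc]
    let S : Finset (Fin m) := Finset.univ.filter (fun j => l j = Sum.inr ())
    have hSm : ∀ j, j ∈ S ↔ l j = Sum.inr () := by
      intro j
      simp only [S, mem_filter, mem_univ, true_and]
    have hS : S.Nonempty := by
      obtain ⟨j, hj⟩ := hl ()
      exact ⟨j, (hSm j).2 hj⟩
    rw [← hb S hS]
    apply hc
    intro e
    by_cases he : ∃ j, e ∈ D j
    · obtain ⟨j, hj⟩ := he
      have h1 : cmp U l e = l j := by
        unfold cmp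
        rw [hU1 j e hj]
        rfl
      have h2 : e ∈ S.biUnion D ↔ j ∈ S := by
        rw [Finset.mem_biUnion]
        constructor
        · rintro ⟨j', hj', he'⟩
          by_cases hjj : j = j'
          · rw [hjj]; exact hj'
          · exact absurd he' (Finset.disjoint_left.1 (hdis _ _ hjj) hj)
        · intro h
          exact ⟨j, h, hj⟩
      rw [h1, ← hSm j, ← h2]
      by_cases h3 : e ∈ S.biUnion D
      · simp only [w, if_pos h3, h3]
      · simp only [w, if_neg h3, h3, false_iff]
        exact Sum.inl_ne_inr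
    · have he' : ∀ j, e ∉ D j := fun j hj => he ⟨j, hj⟩
      have h1 : cmp U l e = Sum.inl a₀ := by
        unfold cmp
        rw [hU2 e he']
        rfl
      have h2 : e ∉ S.biUnion D := by
        rw [Finset.mem_biUnion]
        rintro ⟨j, _, hj⟩
        exact he' j hj
      rw [h1]
      simp only [w, if_neg h2]

end Pool.SZ
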