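import Mathlib

/-!
# SZ-Defs: density Hales-Jewett and Szemerédi, definitions

`α` = alphabet, `ι` = set of coordinates; points are functions `ι → α`.  An `η`-dimensional subspace is a word
`W : ι → α ⊕ η` in which every element of `η` occurs (`Pr W`); its points are the `ev W z`, `z : η → α`.
A line is a subspace of dimension `Unit`.
-/

set_option autoImplicit false

namespace Pool.SZ

open Finset

variable {α ι κ η θ : Type}

/-- the point of the subspace `W` with the parameters `z` -/
def ev (W : ι → α ⊕ η) (z : η → α) : ι → α := fun i => Sum.elim id z (W i)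

/-- every direction occurs -/
def Pr (W : ι → α ⊕ η) : Prop := ∀ e, ∃ i, W i = Sum.inr e

/-- composition: the subspace `U` of the subspace `W` -/
def cmp (W : ι → α ⊕ η) (U : η → α ⊕ θ) : ι → α ⊕ θ := fun i => Sum.elim Sum.inl U (W i)

theorem ev_cmp (W : ι → α ⊕ η) (U : η → α ⊕ θ) (z : θ → α) : ev (cmp W U) z = ev W (ev U z) := by
  funext i
  unfold ev cmp
  cases W i <;> rfl

theorem pr_cmp (W : ι → α ⊕ η) (U : η → α ⊕ θ) (hW : Pr W) (hU : Pr U) : Pr (cmp W U) := by
  intro e
  obtain ⟨f, hf⟩ := hU e
  obtain ⟨i, hi⟩ := hW f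
  refine ⟨i, ?_⟩
  unfold cmp
  rw [hi]
  exact hf

theorem ev_inj (W : ι → α ⊕ η) (hW : Pr W) : Function.Injective (ev W) := by
  intro z z' h
  funext e
  obtain ⟨i, hi⟩ := hW e
  have h1 := congrFun h i
  unfold ev at h1
  rw [hi] at h1
  exact h1

section

variable [Fintype α] [DecidableEq α] [Fintype ι] [DecidableEq ι] [Fintype κ] [DecidableEq κ]

/-- number of points -/
noncomputable def nn (α ι : Type) [Fintype α] [Fintype ι] [DecidableEq ι] : ℝ :=
  (Fintype.card (ι → α) : ℝ)

/-- density -/
noncomputable def dn (A : Finset (ι → α)) : ℝ := (A.card : ℝ) / nn α ι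

/-- `A` contains an `η`-dimensional subspace -/
def HasSub (η : Type) (A : Finset (ι → α)) : Prop := ∃ W : ι → α ⊕ η, Pr W ∧ ∀ z, ev W z ∈ A

/-- the density Hales-Jewett property of the alphabet `α` for the density `δ` -/
def DHJ (α : Type) [Fintype α] [DecidableEq α] (δ : ℝ) : Prop :=
  ∃ N : ℕ, ∀ (ι : Type) [Fintype ι] [DecidableEq ι], N ≤ Fintype.card ι →
    ∀ A : Finset (ι → α), δ ≤ dn A → HasSub Unit A

/-- the section over a point of the second block -/
def secR (A : Finset (ι ⊕ κ → α)) (t : κ → α) : Finset (ι → α) :=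
  univ.filter fun x => Sum.elim x t ∈ A

/-- the section over a point of the first block -/
def secL (A : Finset (ι ⊕ κ → α)) (x : ι → α) : Finset (κ → α) :=
  univ.filter fun t => Sum.elim x t ∈ A

/-- `D` does not distinguish `none` and `some i` -/
def Ins (i : α) (D : Finset (ι → Option α)) : Prop :=
  ∀ x y : ι → Option α, (∀ c, x c = y c ∨ ((x c = none ∨ x c = some i) ∧ (y c = none ∨ y c = some i))) →
    x ∈ D → y ∈ D

/-- replace the letter `none` by `i` -/
def rep (i : α) (y : ι → Option α) : ι → Option α := fun c => some ((y c).getD i)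

/-- the points `y` such that all the points `rep i y` lie in `A` -/
def Cset (A : Finset (ι → Option α)) : Finset (ι → Option α) :=
  univ.filter fun y => ∀ i, rep i y ∈ A

end

end Pool.SZ
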