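import Pool.Agent.Lib.MP_c77da8_nt.SZ.Bas

/-!
# SZ-Good: all sections are dense, good lines

For a word `l : ι → Option α ⊕ Unit` (a line of `Option α`-words) and `A ⊆ (ι ⊕ κ → Option α)` let
`goodT A l = {t | for all letters i of α, (ev l (some i), t) ∈ A}`.

PROOF.  `all_sec`: `dn (secL A x) nn = ∑ over all x' - ∑_{x' ≠ x} ≥ nn (δ - η) - (nn - 1)(δ + η) ≥ δ - 2 nn η` (for the
densities, `dn_secL`, `nn = nn (Option α) ι`).
`lift l`: the line of `α`-words `z : Fin m → α ⊕ Unit` as a line of `Option α`-words.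
`good_line`: `m` such that every `E ⊆ (Fin m → α)` of density `≥ δ/4` contains a line.  Let `W` be an `m`-dimensional
subspace.  For `t` let `E_t = {z : Fin m → α | (ev W (some ∘ z), t) ∈ A}`.  `∑_t dn E_t = ∑ over z of the densities of
secL A (ev W (some ∘ z)) / nn ≥ δ/2` on average; so (`many`) for at least `(δ/4) nn (Option α) κ` of the `t` the density of
`E_t` is `≥ δ/4`, and there is a line `z_t : Fin m → α ⊕ Unit` in `E_t`.  `pig`: some `z` (with `Pr z`) occurs for at least
`(δ/4)/card (Fin m → α ⊕ Unit)` of the `t`, and `ev (cmp W (lift z)) (some i) = ev W (some ∘ ev z i)`.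
-/

set_option autoImplicit false

namespace Pool.SZ

open Finset

variable {α ι κ : Type} [Fintype α] [DecidableEq α] [Fintype ι] [DecidableEq ι] [Fintype κ]
  [DecidableEq κ]

/-- the `t` for which the `α`-part of the line `l` with the second block `t` lies in `A` -/
def goodT (A : Finset (ι ⊕ κ → Option α)) (l : ι → Option α ⊕ Unit) : Finset (κ → Option α) :=
  univ.filter fun t => ∀ i : α, Sum.elim (ev l (fun _ => some i)) t ∈ A

/-- a line of `α`-words as a line of `Option α`-words -/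
def lift {m : ℕ} (z : Fin m → α ⊕ Unit) : Fin m → Option α ⊕ Unit := fun e => Sum.map some id (z e)

theorem all_sec [Nonempty α] (A : Finset (ι ⊕ κ → Option α)) (δ η : ℝ) (hη : 0 ≤ η)
    (hA : δ - η ≤ dn A) (hup : ∀ x, dn (secL A x) ≤ δ + η) (x : ι → Option α) :
    δ - 2 * nn (Option α) ι * η ≤ dn (secL A x) := by
  have h1 := dn_secL A
  rw [← Finset.add_sum_erase univ _ (Finset.mem_univ x)] at h1
  have h2 : ∑ x' ∈ univ.erase x, dn (secL A x') ≤ (nn (Option α) ι - 1) * (δ + η) := by
    have h3 := Finset.sum_le_card_nsmul (univ.erase x) (fun x' => dn (secL A x')) (δ + η)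
      (fun x' _ => hup x')
    rw [Finset.card_erase_of_mem (Finset.mem_univ x), nsmul_eq_mul, Nat.cast_sub
      (Finset.card_pos.2 ⟨x, Finset.mem_univ x⟩), Finset.card_univ, Nat.cast_one] at h3
    exact h3
  have hn : 0 < nn (Option α) ι := nn_pos
  have h3 : (δ - η) * nn (Option α) ι ≤ dn A * nn (Option α) ι :=
    mul_le_mul_of_nonneg_right hA hn.le
  nlinarith

theorem ev_lift {m : ℕ} (z : Fin m → α ⊕ Unit) (i : α) :
    ev (lift z) (fun _ => some i) = fun e => some (ev z (fun _ => i) e) := by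
  funext e
  unfold ev lift
  cases z e <;> rfl

theorem good_line [Nonempty α] (m : ℕ) (δ : ℝ) (hδ : 0 < δ)
    (hm : ∀ E : Finset (Fin m → α), δ / 4 ≤ dn E → HasSub Unit E)
    (A : Finset (ι ⊕ κ → Option α)) (hA : ∀ x, δ / 2 ≤ dn (secL A x)) (W : ι → Option α ⊕ Fin m)
    (hW : Pr W) : ∃ z : Fin m → α ⊕ Unit, Pr z ∧
      δ / 4 / (Fintype.card (Fin m → α ⊕ Unit) : ℝ) ≤ dn (goodT A (cmp W (lift z))) := by
  classical
  let E : (κ → Option α) → Finset (Fin m → α) := fun t =>
    univ.filter fun z => Sum.elim (ev W (fun e => some (z e))) t ∈ A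
  have hnm : 0 < nn α (Fin m) := nn_pos
  have hnk : 0 < nn (Option α) κ := nn_pos
  have hsum : δ / 2 * (Fintype.card (κ → Option α) : ℝ) ≤ ∑ t, dn (E t) := by
    have h1 : ∑ t, ((E t).card : ℝ) =
        ∑ z : Fin m → α, ((secL A (ev W (fun e => some (z e)))).card : ℝ) := by
      simp only [E, secL, Finset.card_filter]
      push_cast
      exact Finset.sum_comm
    have h2 : ∑ z : Fin m → α, δ / 2 * nn (Option α) κ ≤
        ∑ z : Fin m → α, ((secL A (ev W (fun e => some (z e)))).card : ℝ) := by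
      apply Finset.sum_le_sum
      intro z _
      have h3 := hA (ev W (fun e => some (z e)))
      unfold dn at h3
      rwa [le_div_iff₀ hnk] at h3
    rw [Finset.sum_const, Finset.card_univ, nsmul_eq_mul] at h2
    have h4 : ∑ t, dn (E t) = (∑ t, ((E t).card : ℝ)) / nn α (Fin m) := by
      rw [Finset.sum_div]
      rfl
    rw [h4, h1, le_div_iff₀ hnm]
    refine le_trans (le_of_eq ?_) h2
    unfold nn
    ring
  have hmany := many (fun t => dn (E t)) (fun t => dn_le_one _) (δ / 2) (by linarith) hsum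
  set B : Finset (κ → Option α) := univ.filter fun t => δ / 2 / 2 ≤ dn (E t) with hB
  have hex : ∀ t, ∃ z : Fin m → α ⊕ Unit, t ∈ B → Pr z ∧ ∀ u, ev z u ∈ E t := by
    intro t
    by_cases ht : t ∈ B
    · have h1 : δ / 2 / 2 ≤ dn (E t) := by
        rw [hB, Finset.mem_filter] at ht
        exact ht.2
      obtain ⟨z, hz1, hz2⟩ := hm (E t) (by linarith)
      exact ⟨z, fun _ => ⟨hz1, hz2⟩⟩
    · exact ⟨fun _ => Sum.inr (), fun h => absurd h ht⟩
  choose φ hφ using hex
  obtain ⟨c, hc⟩ := pig B φ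
  have hcard : (0 : ℝ) < (Fintype.card (κ → Option α) : ℝ) := hnk
  have hBpos : (0 : ℝ) < (B.card : ℝ) := lt_of_lt_of_le (by positivity) hmany
  have hγ : (0 : ℝ) < (Fintype.card (Fin m → α ⊕ Unit) : ℝ) := by
    have : 0 < Fintype.card (Fin m → α ⊕ Unit) := Fintype.card_pos
    exact_mod_cast this
  have hFpos : 0 < (B.filter fun b => φ b = c).card := by
    by_contra hcon
    have h0 : (B.filter fun b => φ b = c).card = 0 := by omega
    rw [h0] at hc
    simp only [Nat.cast_zero, mul_zero] at hc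
    linarith
  obtain ⟨b, hb⟩ := Finset.card_pos.1 hFpos
  rw [Finset.mem_filter] at hb
  refine ⟨c, hb.2 ▸ (hφ b hb.1).1, ?_⟩
  have hsub : (B.filter fun b => φ b = c) ⊆ goodT A (cmp W (lift c)) := by
    intro t ht
    rw [Finset.mem_filter] at ht
    unfold goodT
    rw [Finset.mem_filter]
    refine ⟨Finset.mem_univ _, fun i => ?_⟩
    rw [ev_cmp, ev_lift]
    have h1 := (hφ t ht.1).2 (fun _ => i)
    rw [ht.2] at h1
    simp only [E, Finset.mem_filter] at h1
    exact h1.2
  have hle : ((B.filter fun b => φ b = c).card : ℝ) ≤ ((goodT A (cmp W (lift c))).card : ℝ) := by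
    exact_mod_cast Finset.card_le_card hsub
  unfold dn
  rw [div_le_div_iff₀ hγ hnk]
  have h5 : δ / 4 * nn (Option α) κ ≤ (B.card : ℝ) := by
    refine le_trans (le_of_eq ?_) hmany
    unfold nn
    ring
  calc δ / 4 * nn (Option α) κ ≤ (B.card : ℝ) := h5
    _ ≤ (Fintype.card (Fin m → α ⊕ Unit) : ℝ) * ((B.filter fun b => φ b = c).card : ℝ) := hc
    _ ≤ (Fintype.card (Fin m → α ⊕ Unit) : ℝ) * ((goodT A (cmp W (lift c))).card : ℝ) := by
        gcongr
    _ = _ := by ring

end Pool.SZ
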