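import Pool.Agent.Lib.MP_c77da8_nt.SZ.TileA

/-!
# SZ-TileB: tiling the intersection of insensitive sets (dual form)

PROOF.  `tile_one`: iterate `tileP_step` `r` times from `tileP_one` with `ρ/2` in place of `ρ`, `(1-β)^r ≤ ρ/2`
(`exists_pow_lt_of_lt_one`; if `β = 1` one step), `#D ≤ nn`.
`tile_fin` (here `tb_fin`): induction on the finset `s` of letters, for all `M`, `ρ`.  `s = ∅`: the set is everything, and it is insensitive;
apply `tile_one` to `D = univ` with any letter (or note that `univ` is `Ins`).  (Then the bound `lam #D + ρ nn = (lam+ρ) nn`.)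
`insert j s`: let `N₁` be the number for `(s, M, ρ/2)`, and apply `tile_one` with dimension `M₁ = N₁` (so that
`Fin M₁` is large enough) and `ρ/2` to `D j`, with `h = g * 1_{x ∈ D i for all i ∈ s}` in place of `g` and `lam + ρ/2` in place of
`lam`:  for an `M₁`-dimensional subspace `W ⊆ D j` the pulled back sets `{z | ev W z ∈ D i}`, `i ∈ s`, are insensitive in
`Fin M₁ → Option α`, and for `z ↦ g (ev W z)` the hypothesis of the induction hypothesis holds (`cmp W U` is a subspace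
inside all the `D i`, `i ∈ insert j s`); so `∑_z h (ev W z) ≤ (lam + ρ/2) nn (Option α) (Fin M₁)`.
`tile_one` gives `∑_{x ∈ D j} h x ≤ (lam + ρ/2) #(D j) + (ρ/2) nn ≤ (lam + ρ) nn`.  (`h ≤ 1` as `g ≤ 1`.)
`tile_all`: `s = univ`.
-/

set_option autoImplicit false

namespace Pool.SZ

open Finset

theorem tb_pow (α : Type) [Fintype α] [DecidableEq α] [Nonempty α] (M : ℕ) (ρ : ℝ) (hρ : 0 < ρ)
    (β : ℝ) (hβ1 : β ≤ 1)
    (h : ∀ c : ℝ, 0 ≤ c → TileP α M ρ c → TileP α M ρ (c * (1 - β))) (r : ℕ) :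
    TileP α M ρ ((1 - β) ^ r) := by
  induction r with
  | zero => simpa using tileP_one α M ρ hρ
  | succ r ih =>
    rw [pow_succ]
    exact h _ (pow_nonneg (by linarith) r) ih

theorem tb_card_le {β ι : Type} [Fintype β] [Fintype ι] [DecidableEq ι]
    (D : Finset (ι → β)) : (D.card : ℝ) ≤ nn β ι := by
  unfold nn
  have h := Finset.card_le_univ D
  exact_mod_cast h

theorem tile_one (α : Type) [Fintype α] [DecidableEq α] [Nonempty α]
    (hα : ∀ δ : ℝ, 0 < δ → DHJ α δ) (M : ℕ) (ρ : ℝ) (hρ : 0 < ρ) :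
    ∃ N : ℕ, ∀ (ι : Type) [Fintype ι] [DecidableEq ι], N ≤ Fintype.card ι →
    ∀ (i : α) (D : Finset (ι → Option α)), Ins i D → ∀ g : (ι → Option α) → ℝ, (∀ x, g x ≤ 1) →
    ∀ lam : ℝ, 0 ≤ lam →
    (∀ W : ι → Option α ⊕ Fin M, Pr W → (∀ z, ev W z ∈ D) →
      ∑ z, g (ev W z) ≤ lam * nn (Option α) (Fin M)) →
    ∑ x ∈ D, g x ≤ lam * (D.card : ℝ) + ρ * nn (Option α) ι := by
  have hρ2 : 0 < ρ / 2 := by linarith
  obtain ⟨β, hβ0, hβ1, hst⟩ := tileP_step α hα M (ρ / 2) hρ2
  obtain ⟨r, hr⟩ := exists_pow_lt_of_lt_one hρ2 (show 1 - β < 1 by linarith)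
  obtain ⟨N, hN⟩ := tb_pow α M (ρ / 2) hρ2 β hβ1 hst r
  refine ⟨N, fun ι _ _ hι i D hD g hg lam hlam hW => ?_⟩
  have h1 := hN ι hι i D hD g hg lam hlam hW
  have h2 : (D.card : ℝ) ≤ nn (Option α) ι := tb_card_le D
  have h3 : (0 : ℝ) ≤ (D.card : ℝ) := Nat.cast_nonneg _
  have h4 : (1 - β) ^ r * (D.card : ℝ) ≤ ρ / 2 * nn (Option α) ι :=
    mul_le_mul hr.le h2 h3 hρ2.le
  nlinarith [h1, h4]

theorem tb_pull {α ι κ : Type} [Fintype α] [DecidableEq α] [Fintype ι] [DecidableEq ι] [Fintype κ]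
    [DecidableEq κ] (i : α) (D : Finset (ι → Option α)) (hD : Ins i D) (W : ι → Option α ⊕ κ) :
    Ins i (univ.filter fun z : κ → Option α => ev W z ∈ D) := by
  intro x y hxy hx
  rw [mem_filter] at hx ⊢
  refine ⟨mem_univ _, hD _ _ (fun c => ?_) hx.2⟩
  unfold ev
  cases hc : W c with
  | inl a => left; rfl
  | inr e => exact hxy e

theorem tb_fin (α : Type) [Fintype α] [DecidableEq α] [Nonempty α]
    (hα : ∀ δ : ℝ, 0 < δ → DHJ α δ) (s : Finset α) :
    ∀ (M : ℕ) (ρ : ℝ), 0 < ρ → ∃ N : ℕ, ∀ (ι : Type) [Fintype ι] [DecidableEq ι],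
    N ≤ Fintype.card ι →
    ∀ D : α → Finset (ι → Option α), (∀ i, Ins i (D i)) →
    ∀ g : (ι → Option α) → ℝ, (∀ x, g x ≤ 1) → ∀ lam : ℝ, 0 ≤ lam →
    (∀ W : ι → Option α ⊕ Fin M, Pr W → (∀ z, ∀ i ∈ s, ev W z ∈ D i) →
      ∑ z, g (ev W z) ≤ lam * nn (Option α) (Fin M)) →
    ∑ x ∈ univ.filter (fun x => ∀ i ∈ s, x ∈ D i), g x ≤ (lam + ρ) * nn (Option α) ι := by
  classical
  induction s using Finset.induction_on with
  | empty =>
    intro M ρ hρ
    obtain ⟨N, hN⟩ := tile_one α hα M ρ hρ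
    refine ⟨N, fun ι _ _ hι D hD g hg lam hlam hW => ?_⟩
    have i0 : α := Classical.arbitrary α
    have h1 := hN ι hι i0 univ (fun x y _ _ => mem_univ y) g hg lam hlam
      (fun W hW1 _ => hW W hW1 (fun z i hi => absurd hi (Finset.notMem_empty i)))
    have h2 : ((univ : Finset (ι → Option α)).card : ℝ) = nn (Option α) ι := by
      unfold nn
      rfl
    rw [h2] at h1
    have h3 : univ.filter (fun x : ι → Option α => ∀ i ∈ (∅ : Finset α), x ∈ D i) = univ := by
      ext x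
      simp
    rw [h3]
    linarith
  | insert j s hj ih =>
    intro M ρ hρ
    have hρ2 : 0 < ρ / 2 := by linarith
    obtain ⟨N1, hN1⟩ := ih M (ρ / 2) hρ2
    obtain ⟨N, hN⟩ := tile_one α hα N1 (ρ / 2) hρ2
    refine ⟨N, fun ι _ _ hι D hD g hg lam hlam hW => ?_⟩
    set h : (ι → Option α) → ℝ := fun x => if ∀ i ∈ s, x ∈ D i then g x else 0 with hh
    have hh1 : ∀ x, h x ≤ 1 := by
      intro x
      simp only [hh]
      split_ifs
      · exact hg x
      · norm_num
    have key : ∀ W : ι → Option α ⊕ Fin N1, Pr W → (∀ z, ev W z ∈ D j) →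
        ∑ z, h (ev W z) ≤ (lam + ρ / 2) * nn (Option α) (Fin N1) := by
      intro W hW1 hW2
      have h1 := hN1 (Fin N1) (by simp)
        (fun i => univ.filter fun z : Fin N1 → Option α => ev W z ∈ D i)
        (fun i => tb_pull i (D i) (hD i) W) (fun z => g (ev W z)) (fun z => hg _) lam hlam
        (fun U hU hU2 => by
          have h2 := hW (cmp W U) (pr_cmp W U hW1 hU) (fun z i hi => by
            rw [ev_cmp]
            rcases Finset.mem_insert.mp hi with rfl | hi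
            · exact hW2 _
            · exact (mem_filter.mp (hU2 z i hi)).2)
          refine le_trans (le_of_eq ?_) h2
          exact Finset.sum_congr rfl fun z _ => by rw [ev_cmp])
      refine le_trans (le_of_eq ?_) h1
      rw [Finset.sum_filter]
      refine Finset.sum_congr rfl fun z _ => ?_
      simp only [hh]
      refine if_congr ?_ rfl rfl
      constructor
      · intro H i hi
        exact mem_filter.mpr ⟨mem_univ _, H i hi⟩
      · intro H i hi
        exact (mem_filter.mp (H i hi)).2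
    have h1 := hN ι hι j (D j) (hD j) h hh1 (lam + ρ / 2) (by linarith) key
    have h2 : ∑ x ∈ univ.filter (fun x => ∀ i ∈ insert j s, x ∈ D i), g x = ∑ x ∈ D j, h x := by
      simp only [hh]
      rw [← Finset.sum_filter]
      refine Finset.sum_congr ?_ fun _ _ => rfl
      ext x
      simp only [mem_filter, mem_univ, true_and, Finset.mem_insert]
      constructor
      · intro H
        exact ⟨H j (Or.inl rfl), fun i hi => H i (Or.inr hi)⟩
      · rintro ⟨H1, H2⟩ i hi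
        rcases hi with rfl | hi
        · exact H1
        · exact H2 i hi
    rw [h2]
    have h3 : ((D j).card : ℝ) ≤ nn (Option α) ι := tb_card_le _
    have h4 : (lam + ρ / 2) * ((D j).card : ℝ) ≤ (lam + ρ / 2) * nn (Option α) ι :=
      mul_le_mul_of_nonneg_left h3 (by linarith)
    nlinarith [h1, h4]

theorem tile_all (α : Type) [Fintype α] [DecidableEq α] [Nonempty α]
    (hα : ∀ δ : ℝ, 0 < δ → DHJ α δ) (M : ℕ) (ρ : ℝ) (hρ : 0 < ρ) :
    ∃ N : ℕ, ∀ (ι : Type) [Fintype ι] [DecidableEq ι], N ≤ Fintype.card ι →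
    ∀ D : α → Finset (ι → Option α), (∀ i, Ins i (D i)) →
    ∀ g : (ι → Option α) → ℝ, (∀ x, g x ≤ 1) → ∀ lam : ℝ, 0 ≤ lam →
    (∀ W : ι → Option α ⊕ Fin M, Pr W → (∀ z i, ev W z ∈ D i) →
      ∑ z, g (ev W z) ≤ lam * nn (Option α) (Fin M)) →
    ∑ x ∈ univ.filter (fun x => ∀ i, x ∈ D i), g x ≤ (lam + ρ) * nn (Option α) ι := by
  obtain ⟨N, hN⟩ := tb_fin α hα univ M ρ hρ
  refine ⟨N, fun ι _ _ hι D hD g hg lam hlam hW => ?_⟩
  have h1 := hN ι hι D hD g hg lam hlam
    (fun W hW1 hW2 => hW W hW1 (fun z i => hW2 z i (mem_univ i)))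
  refine le_trans (le_of_eq ?_) h1
  refine Finset.sum_congr ?_ fun _ _ => rfl
  ext x
  simp only [mem_filter, mem_univ, true_and, true_implies]

end Pool.SZ
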