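import Pool.Agent.Lib.MP_c77da8_nt.SZ.Step
import Pool.Agent.Lib.MP_c77da8_nt.SZ.TileB

/-!
# SZ-Inc: the density Hales-Jewett theorem for `Option α`

PROOF.  `tile_compl`: let `C i`, `i : α`, be insensitive sets (`Ins i (C i)`), `g ≤ 1`, and every `M`-dimensional subspace
`W` (no condition) has `∑_z g (ev W z) ≤ 0`.  Then the sum of `g` over the complement of `⋂ C i` is at most
`card α * ρ * nn`.  Induction on the finset `s` of letters for the complement of `⋂_{i ∈ s} C i`: the complement for
`insert j s` is the disjoint union of the one for `s` and of `⋂_{i ∈ s} C i ∩ (C j)ᶜ`, which is the intersection of the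
insensitive sets `D i = C i` (`i ∈ s`), `D j = (C j)ᶜ`, `D i = univ` otherwise; `tile_all` with `lam = 0` bounds the sum over it
by `ρ nn`.
`inc`: let `γ` be from `step_one`; `ε₀ = δ γ/4`, `M` = the `N` of `DHJ (Option α) (δ + ε₀)`, `k = card α`,
`ρ = δ γ/(8k)`, `m₀ ≥` the `N` of `tile_all` and such that `(k/(k+1))^m₀ ≤ δ γ/8`, `η₁ = δ γ/8`; then `m`, `η'`, `N` from
`step_one`; the claim is `DHJ (Option α) (δ - η')` with this `N`.  If `A` has no line, take `A'`.  `C i = {y | rep i y ∈ A'}` is
insensitive, `Cset A' = ⋂ C i`.  If `y ∈ A' ∩ Cset A'` has a letter `none`, then `A'` contains the line of `y` (the word with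
`inr ()` where `y = none`: its points are the `rep i y` and `y` itself), a contradiction.  So
`A' ∩ Cset A' ⊆ {y without none}`, of density `(k/(k+1))^m ≤ δ γ/8`.  Let `g = 1_{A'} - (δ + ε₀) ≤ 1`.  Every
`M`-dimensional subspace `W` of `Fin m → Option α` satisfies `∑_z g (ev W z) ≤ 0`, since otherwise
`{z | ev W z ∈ A'}` has density `> δ + ε₀` and contains a line (`sub_comp`).  So by `tile_compl`
`dn A' ≤ δ γ/8 + (δ + ε₀)(1 - dn (Cset A')) + k ρ ≤ δγ/8 + (δ + δγ/4)(1 - γ) + δγ/8 < δ - δγ/8 ≤ dn A'`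
(`(δ + δγ/4)(1-γ) ≤ δ - δγ + δγ/4`), a contradiction.
`dhj_option`: let `S` be the set of the `δ > 0` for which `DHJ (Option α) δ` fails; bounded by `1` (`dn ≤ 1`: for `δ > 1` the
property is vacuous); if `S` is not empty let `δ = sSup S > 0`; `DHJ` holds for all `δ' > δ`, so by `inc` it holds for
`δ - η'`, and by `DHJ_mono` for all larger numbers: `S` is bounded by `δ - η'`, a contradiction.
-/

set_option autoImplicit false

namespace Pool.SZ

open Finset

theorem ins_compl {α ι : Type} [Fintype α] [DecidableEq α] [Fintype ι] [DecidableEq ι] (i : α)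
    (D : Finset (ι → Option α)) (h : Ins i D) : Ins i Dᶜ := by
  intro x y hxy hx
  rw [mem_compl] at hx ⊢
  intro hy
  refine hx (h y x (fun c => ?_) hy)
  rcases hxy c with h1 | ⟨h1, h2⟩
  · exact Or.inl h1.symm
  · exact Or.inr ⟨h2, h1⟩

theorem ins_univ {α ι : Type} [Fintype α] [DecidableEq α] [Fintype ι] [DecidableEq ι] (i : α) :
    Ins i (univ : Finset (ι → Option α)) := fun _ _ _ _ => mem_univ _

theorem tile_compl (α : Type) [Fintype α] [DecidableEq α] [Nonempty α]
    (hα : ∀ δ : ℝ, 0 < δ → DHJ α δ) (M : ℕ) (ρ : ℝ) (hρ : 0 < ρ) :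
    ∃ N : ℕ, ∀ (ι : Type) [Fintype ι] [DecidableEq ι], N ≤ Fintype.card ι →
    ∀ C : α → Finset (ι → Option α), (∀ i, Ins i (C i)) →
    ∀ g : (ι → Option α) → ℝ, (∀ x, g x ≤ 1) →
    (∀ W : ι → Option α ⊕ Fin M, Pr W → ∑ z, g (ev W z) ≤ 0) →
    ∀ s : Finset α, ∑ x ∈ univ.filter (fun x => ¬ ∀ i ∈ s, x ∈ C i), g x
      ≤ (s.card : ℝ) * ρ * nn (Option α) ι := by
  obtain ⟨N, hN⟩ := tile_all α hα M ρ hρ
  refine ⟨N, fun ι _ _ hι C hC g hg hW s => ?_⟩
  induction s using Finset.induction_on with
  | empty => simp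
  | insert j s hj ih =>
    have hsplit : univ.filter (fun x : ι → Option α => ¬ ∀ i ∈ insert j s, x ∈ C i)
        = univ.filter (fun x => ¬ ∀ i ∈ s, x ∈ C i)
          ∪ univ.filter (fun x => ∀ i, x ∈ (if i = j then (C j)ᶜ else if i ∈ s then C i else univ)) := by
      ext x
      simp only [mem_filter, mem_univ, true_and, mem_union, mem_insert]
      constructor
      · intro h
        by_cases h1 : ∀ i ∈ s, x ∈ C i
        · right
          have h2 : x ∉ C j := by
            intro h2
            refine h (fun i hi => ?_)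
            rcases hi with rfl | hi
            · exact h2
            · exact h1 i hi
          intro i
          by_cases hij : i = j
          · rw [if_pos hij, mem_compl]
            exact h2
          · rw [if_neg hij]
            by_cases his : i ∈ s
            · rw [if_pos his]
              exact h1 i his
            · rw [if_neg his]
              exact mem_univ _
        · left
          exact h1
      · rintro (h | h) h'
        · exact h (fun i hi => h' i (Or.inr hi))
        · have h1 := h j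
          rw [if_pos rfl, mem_compl] at h1
          exact h1 (h' j (Or.inl rfl))
    have hdisj : Disjoint (univ.filter (fun x : ι → Option α => ¬ ∀ i ∈ s, x ∈ C i))
        (univ.filter (fun x => ∀ i, x ∈ (if i = j then (C j)ᶜ else if i ∈ s then C i else univ))) := by
      rw [Finset.disjoint_left]
      intro x hx hx'
      simp only [mem_filter, mem_univ, true_and] at hx hx'
      refine hx (fun i hi => ?_)
      have h1 := hx' i
      have hij : i ≠ j := fun h => hj (h ▸ hi)
      rw [if_neg hij, if_pos hi] at h1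
      exact h1
    rw [hsplit, Finset.sum_union hdisj, Finset.card_insert_of_notMem hj]
    have h2 := hN ι hι (fun i => if i = j then (C j)ᶜ else if i ∈ s then C i else univ) (by
      intro i
      by_cases hij : i = j
      · simp only [if_pos hij]
        rw [hij]
        exact ins_compl j _ (hC j)
      · simp only [if_neg hij]
        by_cases his : i ∈ s
        · simp only [if_pos his]
          exact hC i
        · simp only [if_neg his]
          exact ins_univ i) g hg 0 le_rfl (fun W hW1 _ => by rw [zero_mul]; exact hW W hW1)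
    push_cast
    have h3 := add_le_add ih h2
    refine h3.trans (le_of_eq ?_)
    ring

/-- the word of the line through `y` and the `rep i y` -/
def lw {α : Type} {ι : Type} (y : ι → Option α) : ι → Option α ⊕ Unit :=
  fun e => (y e).elim (Sum.inr ()) (fun a => Sum.inl (some a))

theorem ev_lw_some {α ι : Type} (y : ι → Option α) (z : Unit → Option α) (i : α) (hz : z () = some i) :
    ev (lw y) z = rep i y := by
  funext e
  unfold ev lw rep
  cases h : y e with
  | none => exact hz
  | some a => rfl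

theorem ev_lw_none {α ι : Type} (y : ι → Option α) (z : Unit → Option α) (hz : z () = none) :
    ev (lw y) z = y := by
  funext e
  unfold ev lw
  cases h : y e with
  | none => exact hz
  | some a => rfl

theorem card_no_none (α : Type) [Fintype α] [DecidableEq α] (m : ℕ) (S : Finset (Fin m → Option α))
    (h : ∀ y ∈ S, ∀ e, y e ≠ none) : (S.card : ℝ) ≤ (Fintype.card α : ℝ) ^ m := by
  have h1 : S ⊆ (univ : Finset (Fin m → α)).image (fun f e => some (f e)) := by
    intro y hy
    rw [mem_image]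
    have h2 : ∀ e, ∃ a, y e = some a := fun e => Option.ne_none_iff_exists'.1 (h y hy e)
    choose f hf using h2
    exact ⟨f, mem_univ _, (funext hf).symm⟩
  have h3 := (card_le_card h1).trans card_image_le
  rw [card_univ, Fintype.card_fun, Fintype.card_fin] at h3
  exact_mod_cast h3

theorem inc (α : Type) [Fintype α] [DecidableEq α] [Nonempty α]
    (hα : ∀ ε : ℝ, 0 < ε → DHJ α ε) (δ : ℝ) (hδ : 0 < δ) (hδ1 : δ ≤ 1)
    (H : ∀ δ' : ℝ, δ < δ' → DHJ (Option α) δ') : ∃ η : ℝ, 0 < η ∧ DHJ (Option α) (δ - η) := by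
  obtain ⟨γ, hγ, hstep⟩ := step_one α hα δ hδ hδ1 H
  have hδγ : 0 < δ * γ := mul_pos hδ hγ
  obtain ⟨M, hM⟩ := H (δ + δ * γ / 4) (by linarith)
  set k : ℝ := (Fintype.card α : ℝ) with hk
  have hk0 : 0 < k := by
    rw [hk]
    exact Nat.cast_pos.2 Fintype.card_pos
  obtain ⟨N₀, hN₀⟩ := tile_compl α hα M (δ * γ / (8 * k)) (by positivity)
  obtain ⟨m₁, hm₁⟩ := exists_pow_lt_of_lt_one (show 0 < δ * γ / 8 by positivity)
    (show k / (k + 1) < 1 by rw [div_lt_one (by linarith)]; linarith)
  obtain ⟨m, hm, η', hη', N, hN⟩ := hstep (max N₀ m₁) (δ * γ / 8) (by positivity)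
  refine ⟨η', hη', N, fun ι _ _ hι A hA => ?_⟩
  rcases hN ι hι A hA with h | ⟨A', hA1, hA2, hA3⟩
  · exact h
  exfalso
  have hnn : 0 < nn (Option α) (Fin m) := nn_pos
  have hnnk : nn (Option α) (Fin m) = (k + 1) ^ m := by
    unfold nn
    rw [Fintype.card_fun, Fintype.card_option, Fintype.card_fin]
    push_cast
    rfl
  -- the insensitive sets
  have hC : ∀ i : α, Ins i (univ.filter fun y : Fin m → Option α => rep i y ∈ A') := by
    intro i x y hxy hx
    rw [mem_filter] at hx ⊢
    refine ⟨mem_univ _, ?_⟩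
    have h1 : rep i y = rep i x := by
      funext c
      unfold rep
      rcases hxy c with h | ⟨h | h, h' | h'⟩
      · rw [h]
      · rw [h, h']
      · rw [h, h']; rfl
      · rw [h, h']; rfl
      · rw [h, h']
    rw [h1]
    exact hx.2
  have hg : ∀ W : Fin m → Option α ⊕ Fin M, Pr W →
      ∑ z, ((fun x => (if x ∈ A' then (1:ℝ) else 0) - (δ + δ * γ / 4)) (ev W z)) ≤ 0 := by
    intro W hW
    rw [Finset.sum_sub_distrib, Finset.sum_const, Finset.sum_boole, nsmul_eq_mul, card_univ]
    by_contra hcon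
    rw [not_le] at hcon
    refine hA1 (sub_comp A' W hW (hM (Fin M) (by simp) _ ?_))
    unfold dn
    rw [le_div_iff₀ nn_pos]
    unfold nn
    linarith
  have ht := hN₀ (Fin m) (by rw [Fintype.card_fin]; exact (le_max_left _ _).trans hm) _ hC
    (fun x => (if x ∈ A' then (1:ℝ) else 0) - (δ + δ * γ / 4)) (fun x => by
      have : (if x ∈ A' then (1:ℝ) else 0) ≤ 1 := by split_ifs <;> norm_num
      have : 0 < δ + δ * γ / 4 := by linarith
      linarith) hg univ
  have hCs : univ.filter (fun x : Fin m → Option α => ¬ ∀ i ∈ (univ : Finset α),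
      x ∈ univ.filter (fun y : Fin m → Option α => rep i y ∈ A')) = (Cset A')ᶜ := by
    ext x
    simp only [mem_filter, mem_univ, true_and, mem_compl, Cset, forall_const]
  rw [hCs, Finset.card_univ, ← hk] at ht
  have hkρ : k * (δ * γ / (8 * k)) = δ * γ / 8 := by
    field_simp
  rw [hkρ] at ht
  -- the points of A' in Cset A' have no letter none
  have hno : ((A' ∩ Cset A').card : ℝ) ≤ δ * γ / 8 * nn (Option α) (Fin m) := by
    have h1 : ((A' ∩ Cset A').card : ℝ) ≤ k ^ m := by
      refine card_no_none α m _ (fun y hy e he => hA1 ?_)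
      rw [mem_inter] at hy
      have hy2 : ∀ i, rep i y ∈ A' := by
        have := hy.2
        unfold Cset at this
        exact (mem_filter.1 this).2
      refine ⟨lw y, fun _ => ⟨e, by unfold lw; rw [he]; rfl⟩, fun z => ?_⟩
      cases hz : z () with
      | none => rw [ev_lw_none y z hz]; exact hy.1
      | some i => rw [ev_lw_some y z i hz]; exact hy2 i
    refine h1.trans ?_
    rw [hnnk]
    have h2 : (k / (k + 1)) ^ m ≤ δ * γ / 8 := by
      refine le_trans ?_ hm₁.le
      exact pow_le_pow_of_le_one (by positivity) (by rw [div_le_one (by linarith)]; linarith)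
        ((le_max_right _ _).trans hm)
    rw [div_pow, div_le_iff₀ (by positivity)] at h2
    exact h2
  have hsum : ∑ x ∈ (Cset A')ᶜ, ((if x ∈ A' then (1:ℝ) else 0) - (δ + δ * γ / 4))
      = (A'.card : ℝ) - ((A' ∩ Cset A').card : ℝ)
        - (δ + δ * γ / 4) * (nn (Option α) (Fin m) - ((Cset A').card : ℝ)) := by
    rw [Finset.sum_sub_distrib, Finset.sum_const, Finset.sum_boole, nsmul_eq_mul]
    have h1 : ((Cset A')ᶜ.card : ℝ) = nn (Option α) (Fin m) - ((Cset A').card : ℝ) := by
      have := Finset.card_add_card_compl (Cset A')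
      unfold nn
      rw [← this]
      push_cast
      ring
    have h2 : (((Cset A')ᶜ.filter (fun x => x ∈ A')).card : ℝ)
        = (A'.card : ℝ) - ((A' ∩ Cset A').card : ℝ) := by
      have h3 : (Cset A')ᶜ.filter (fun x => x ∈ A') = A' \ Cset A' := by
        ext x
        simp only [mem_filter, mem_compl, mem_sdiff]
        exact and_comm
      rw [h3]
      have h4 := Finset.card_sdiff_add_card_inter A' (Cset A')
      rw [← h4]
      push_cast
      ring
    rw [h1, h2]
    ring
  rw [hsum] at ht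
  have hd1 : (δ - δ * γ / 8) * nn (Option α) (Fin m) ≤ (A'.card : ℝ) := by
    unfold dn at hA2
    rwa [le_div_iff₀ hnn] at hA2
  have hd2 : γ * nn (Option α) (Fin m) ≤ ((Cset A').card : ℝ) := by
    unfold dn at hA3
    rwa [le_div_iff₀ hnn] at hA3
  have hd3 : (δ + δ * γ / 4) * (γ * nn (Option α) (Fin m)) ≤ (δ + δ * γ / 4) * ((Cset A').card : ℝ) :=
    mul_le_mul_of_nonneg_left hd2 (by linarith)
  have hd4 : 0 < δ * γ * nn (Option α) (Fin m) := mul_pos hδγ hnn
  have hd5 : 0 ≤ δ * γ * γ * nn (Option α) (Fin m) := by positivity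
  nlinarith

theorem dhj_option (α : Type) [Fintype α] [DecidableEq α] [Nonempty α]
    (hα : ∀ ε : ℝ, 0 < ε → DHJ α ε) (δ : ℝ) (hδ : 0 < δ) : DHJ (Option α) δ := by
  by_contra h
  have hne : δ ∈ {δ' : ℝ | 0 < δ' ∧ ¬ DHJ (Option α) δ'} := ⟨hδ, h⟩
  have hb : ∀ δ' ∈ {δ' : ℝ | 0 < δ' ∧ ¬ DHJ (Option α) δ'}, δ' ≤ 1 := by
    rintro δ' ⟨_, h2⟩
    by_contra h3
    rw [not_le] at h3
    refine h2 ⟨0, fun ι _ _ _ A hA => absurd (hA.trans (dn_le_one A)) (not_le.2 h3)⟩
  have hbdd : BddAbove {δ' : ℝ | 0 < δ' ∧ ¬ DHJ (Option α) δ'} := ⟨1, hb⟩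
  have hs0 : 0 < sSup {δ' : ℝ | 0 < δ' ∧ ¬ DHJ (Option α) δ'} := hδ.trans_le (le_csSup hbdd hne)
  obtain ⟨η, hη, hD⟩ := inc α hα _ hs0 (csSup_le ⟨δ, hne⟩ hb) (fun δ' hδ' => by
    by_contra h1
    exact absurd (le_csSup hbdd ⟨hs0.trans hδ', h1⟩) (not_le.2 hδ'))
  obtain ⟨δ'', h1, h2⟩ := exists_lt_of_lt_csSup ⟨δ, hne⟩
    (show sSup {δ' : ℝ | 0 < δ' ∧ ¬ DHJ (Option α) δ'} - η < sSup {δ' : ℝ | 0 < δ' ∧ ¬ DHJ (Option α) δ'} by linarith)
  exact h1.2 (DHJ_mono _ _ h2.le hD)

end Pool.SZ
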