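import Pool.Agent.Lib.MP_c77da8_nt.SZ.Bas

/-!
# SZ-MD: subspaces from lines

PROOF.  Induction on `m`.  `m = 0`: `A` is not empty (`δ > 0`); take the constant word.
`m + 1`: `N₁` from `DHJ α (δ/2)`, `L = card (Fin N₁ → α ⊕ Unit)`, `N₂` from the induction hypothesis for the density
`δ/(2L)`, `N = N₁ + N₂`.  Write `ι ≃ Fin N₁ ⊕ ι₂` (`split_type`, `reidx`, `dn_reidx`).  By `dn_secR`, `many` the set of the
`t` with `dn (secR A t) ≥ δ/2` has at least `(δ/2) nn α ι₂` elements; for each of them choose a line `W_t` in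
`secR A t`; by `pig` some line `W` occurs for a set `B` of `t` of density `≥ δ/(2L)`.  The induction hypothesis gives a
subspace `U` of dimension `Fin m` in `B`; the word `i ↦` (`W i` with `inr () ↦ inr 0`) on the first block, (`U i` with
`inr e ↦ inr e.succ`) on the second block is a subspace of dimension `Fin (m+1)` in `A`.
-/

set_option autoImplicit false

namespace Pool.SZ

open Finset

theorem le_dn_of {α ι : Type} [Fintype α] [DecidableEq α] [Fintype ι] [DecidableEq ι] [Nonempty α] (B : Finset (ι → α)) (c : ℝ)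
    (h : c * nn α ι ≤ (B.card : ℝ)) : c ≤ dn B := by
  unfold dn
  rw [le_div_iff₀ (nn_pos (α := α) (ι := ι))]
  exact h

theorem md (α : Type) [Fintype α] [DecidableEq α] [Nonempty α] (hα : ∀ δ : ℝ, 0 < δ → DHJ α δ)
    (m : ℕ) : ∀ δ : ℝ, 0 < δ → ∃ N : ℕ, ∀ (ι : Type) [Fintype ι] [DecidableEq ι],
      N ≤ Fintype.card ι → ∀ A : Finset (ι → α), δ ≤ dn A → HasSub (Fin m) A := by
  induction m with
  | zero =>
    intro δ hδ
    refine ⟨0, fun ι _ _ _ A hA => ?_⟩
    have hne : A.Nonempty := by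
      rw [Finset.nonempty_iff_ne_empty]
      rintro rfl
      unfold dn at hA
      simp only [card_empty, Nat.cast_zero, zero_div] at hA
      linarith
    obtain ⟨x, hx⟩ := hne
    exact ⟨fun i => Sum.inl (x i), fun e => e.elim0, fun z => hx⟩
  | succ m ih =>
    intro δ hδ
    obtain ⟨N₁, hN₁⟩ := hα (δ/2) (by linarith)
    set L : ℝ := (Fintype.card (Fin N₁ → α ⊕ Unit) : ℝ) with hL
    have hLpos : 0 < L := by
      rw [hL]
      exact Nat.cast_pos.2 Fintype.card_pos
    obtain ⟨N₂, hN₂⟩ := ih (δ / (2*L)) (by positivity)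
    refine ⟨N₁ + N₂, fun ι _ _ hι A hA => ?_⟩
    obtain ⟨ι₂, f2, d2, e, hc⟩ := split_type (κ := Fin N₁) (ι := ι) N₂ (by simpa using hι)
    refine reidx e A ?_
    have hd : δ ≤ dn (univ.filter fun x : Fin N₁ ⊕ ι₂ → α => (fun i => x (e.symm i)) ∈ A) := by
      rw [dn_reidx]
      exact hA
    generalize (univ.filter fun x : Fin N₁ ⊕ ι₂ → α => (fun i => x (e.symm i)) ∈ A) = A' at hd ⊢
    have hs := dn_secR A'
    have hm := many (fun t => dn (secR A' t)) (fun t => dn_le_one _) δ hδ.le (by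
      change δ * nn α ι₂ ≤ _
      rw [hs]
      exact mul_le_mul_of_nonneg_right hd (nn_pos (α := α) (ι := ι₂)).le)
    have hline : ∀ t : ι₂ → α, ∃ W : Fin N₁ → α ⊕ Unit, δ/2 ≤ dn (secR A' t) →
        (Pr W ∧ ∀ z, ev W z ∈ secR A' t) := by
      intro t
      by_cases h : δ/2 ≤ dn (secR A' t)
      · obtain ⟨W, hW⟩ := hN₁ (Fin N₁) (by simp) _ h
        exact ⟨W, fun _ => hW⟩
      · obtain ⟨a⟩ := ‹Nonempty α›
        exact ⟨fun _ => Sum.inl a, fun h' => absurd h' h⟩
    choose φ hφ using hline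
    obtain ⟨W, hW⟩ := pig (univ.filter (fun t => δ/2 ≤ dn (secR A' t))) φ
    have hB : δ/(2*L) ≤ dn ((univ.filter (fun t => δ/2 ≤ dn (secR A' t))).filter (fun t => φ t = W)) := by
      refine le_dn_of _ _ ?_
      have h1 : δ / 2 * nn α ι₂ ≤ L * _ := le_trans hm hW
      rw [show δ / (2*L) * nn α ι₂ = (δ / 2 * nn α ι₂) / L by field_simp, div_le_iff₀' hLpos]
      exact h1
    obtain ⟨U, hU, hz⟩ := hN₂ ι₂ hc _ hB
    have hmem : ∀ z : Fin m → α, δ/2 ≤ dn (secR A' (ev U z)) ∧ φ (ev U z) = W := by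
      intro z
      have := hz z
      simpa only [mem_filter, mem_univ, true_and] using this
    have hPr : Pr W := by
      obtain ⟨a⟩ := ‹Nonempty α›
      obtain ⟨h1, h2⟩ := hmem (fun _ => a)
      rw [← h2]
      exact (hφ _ h1).1
    have hpt : ∀ (z : Fin m → α) (y : Unit → α), Sum.elim (ev W y) (ev U z) ∈ A' := by
      intro z y
      obtain ⟨h1, h2⟩ := hmem z
      have h3 := (hφ _ h1).2 y
      rw [h2] at h3
      simpa only [secR, mem_filter, mem_univ, true_and] using h3
    refine ⟨Sum.elim (fun i => Sum.map id (fun _ => (0 : Fin (m+1))) (W i))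
      (fun i => Sum.map id Fin.succ (U i)), ?_, ?_⟩
    · intro d
      refine Fin.cases ?_ ?_ d
      · obtain ⟨i, hi⟩ := hPr ()
        refine ⟨Sum.inl i, ?_⟩
        simp [hi]
      · intro d
        obtain ⟨i, hi⟩ := hU d
        refine ⟨Sum.inr i, ?_⟩
        simp [hi]
    · intro z
      have h := hpt (fun d => z d.succ) (fun _ => z 0)
      convert h using 1
      funext i
      cases i with
      | inl i =>
        simp only [ev, Sum.elim_inl]
        cases W i <;> rfl
      | inr i =>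
        simp only [ev, Sum.elim_inr]
        cases U i <;> rfl

end Pool.SZ
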