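import Pool.Agent.Lib.MP_c77da8_nt.SZ.RM
import Pool.Agent.Lib.MP_c77da8_nt.SZ.MD

/-!
# SZ-InsSub: dense insensitive sets contain subspaces

PROOF.  `m` = the `N` of `md α hα M (σ/2)`, then `N` from `free_many α m (σ/2)`.  Let `F` be the indicator of `D`
(average `dn D ≥ σ`): `e`, `u` such that `E = {w : Fin m → α | (fun i => Sum.elim (some ∘ w) u (e.symm i)) ∈ D}` has density
`≥ σ/2`.  `md` gives `U : Fin m → α ⊕ Fin M` with all `ev U z' ∈ E`.  Put `W : ι → Option α ⊕ Fin M`,
`W i = ` (if `e.symm i = inl j`: `U j` with `inl a ↦ inl (some a)`, `inr e ↦ inr e`; if `e.symm i = inr b`: `inl (u b)`).  For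
`z : Fin M → Option α` let `z' e = (z e).getD i₀` (`i₀` the letter of `Ins`): `ev W z` and the point of `D` belonging to
`ev U z'` differ only by `none ↔ some i₀`; so `ev W z ∈ D`.
-/

set_option autoImplicit false

namespace Pool.SZ

open Finset

theorem ins_sub (α : Type) [Fintype α] [DecidableEq α] [Nonempty α]
    (hα : ∀ δ : ℝ, 0 < δ → DHJ α δ) (M : ℕ) (σ : ℝ) (hσ : 0 < σ) :
    ∃ N : ℕ, ∀ (ι : Type) [Fintype ι] [DecidableEq ι], N ≤ Fintype.card ι →
      ∀ (i : α) (D : Finset (ι → Option α)), Ins i D → σ ≤ dn D → HasSub (Fin M) D := by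
  classical
  obtain ⟨m, hm⟩ := md α hα M (σ / 2) (by positivity)
  obtain ⟨N, hN⟩ := free_many α m (σ / 2) (by positivity)
  refine ⟨N, fun ι _ _ hι i D hD hσD => ?_⟩
  obtain ⟨ι₂, f₂, d₂, e, u, h⟩ := hN ι hι (fun x => if x ∈ D then 1 else 0)
    (fun x => by split_ifs <;> norm_num) (fun x => by split_ifs <;> norm_num)
  let E : Finset (Fin m → α) :=
    univ.filter fun w => (fun c => Sum.elim (fun j => some (w j)) u (e.symm c)) ∈ D
  have h1 : (∑ x : ι → Option α, (if x ∈ D then (1 : ℝ) else 0)) = (D.card : ℝ) := by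
    rw [Finset.sum_boole]
    congr 2
    ext x
    simp
  have h2 : (∑ w : Fin m → α,
      (if (fun c => Sum.elim (fun j => some (w j)) u (e.symm c)) ∈ D then (1 : ℝ) else 0)) =
        (E.card : ℝ) := by
    rw [Finset.sum_boole]
  have h3 : σ / 2 ≤ dn E := by
    have h4 : (D.card : ℝ) / nn (Option α) ι - σ / 2 ≤ (E.card : ℝ) / nn α (Fin m) := by
      rw [← h1, ← h2]
      exact h
    have h5 : σ ≤ (D.card : ℝ) / nn (Option α) ι := hσD
    have h6 : dn E = (E.card : ℝ) / nn α (Fin m) := rfl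
    rw [h6]
    linarith
  obtain ⟨U, hU, hUE⟩ := hm (Fin m) (by simp) E h3
  refine ⟨fun c => Sum.elim (fun j => Sum.map some id (U j)) (fun b => Sum.inl (u b)) (e.symm c),
    ?_, ?_⟩
  · intro k
    obtain ⟨j, hj⟩ := hU k
    refine ⟨e (Sum.inl j), ?_⟩
    dsimp only
    rw [Equiv.symm_apply_apply, Sum.elim_inl, hj]
    rfl
  · intro z
    have h7 := hUE fun k => (z k).getD i
    have h8 : (fun c => Sum.elim (fun j => some (ev U (fun k => (z k).getD i) j)) u (e.symm c)) ∈ D :=
      (mem_filter.mp h7).2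
    refine hD _ _ (fun c => ?_) h8
    unfold ev
    dsimp only
    rcases e.symm c with j | b
    · dsimp only [Sum.elim_inl]
      rcases U j with a | k
      · left
        rfl
      · dsimp only [Sum.elim_inr, Sum.map_inr, id]
        cases hz : z k with
        | none =>
          right
          exact ⟨Or.inr rfl, Or.inl rfl⟩
        | some a =>
          left
          rfl
    · left
      rfl

end Pool.SZ
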