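import Pool.Agent.Lib.MP_c77da8_nt.SZ.RO
import Pool.Agent.Lib.MP_c77da8_nt.SZ.Bas

/-!
# SZ-RM: making many coordinates free of the letter `none`

PROOF.  Induction on `m`, for all `ε`.  `m = 0`: take `ι₂ = ι` and a point `u` with `F u ≥` the average.
`m + 1`: `N ≥ N_m(ε/2) + 1` and `≥ 4/ε² + 1`.  `free_one` gives `c`; let `ι' = {x // x ≠ c}` and
`F' (x') = (1/card α) ∑_a F (x' extended by some a at c)`.  The average of `F'` is
`((k+1)/k) ∑_{x c ≠ none} F x / nn (Option α) ι ≥ avg F - 1/√(card ι) ≥ avg F - ε/2`
(`nn (Option α) ι = (k+1) nn (Option α) ι'`).  Induction hypothesis for `ι'`, `F'`, `ε/2`: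
`e' : Fin m ⊕ ι₂ ≃ ι'`, `u`; then `Fin (m+1) ⊕ ι₂ ≃ Option (Fin m) ⊕ ι₂ ≃ Option (Fin m ⊕ ι₂) ≃ Option ι' ≃ ι` with
`c` for the new coordinate; the average over `w : Fin (m+1) → α` is the average over `(a, w')`.
-/

set_option autoImplicit false

namespace Pool.SZ

open Finset

/-- extension of a point by the value `o` at `c` -/
private def ext {β ι : Type} [DecidableEq ι] (c : ι) (o : β) (x : {j : ι // j ≠ c} → β) : ι → β :=
  fun i => if h : i = c then o else x ⟨i, h⟩

private theorem ext_c {β ι : Type} [DecidableEq ι] (c : ι) (o : β) (x : {j : ι // j ≠ c} → β) :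
    ext c o x c = o := by
  unfold ext
  rw [dif_pos rfl]

private theorem ext_ne {β ι : Type} [DecidableEq ι] (c : ι) (o : β) (x : {j : ι // j ≠ c} → β) (i : ι)
    (h : i ≠ c) : ext c o x i = x ⟨i, h⟩ := by
  unfold ext
  rw [dif_neg h]

/-- splitting off a coordinate -/
private def spl {β ι : Type} [DecidableEq ι] (c : ι) : (ι → β) ≃ β × ({j : ι // j ≠ c} → β) where
  toFun x := (x c, fun i => x i.1)
  invFun p := ext c p.1 p.2
  left_inv x := by
    funext i
    by_cases h : i = c
    · subst h
      exact ext_c _ _ _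
    · exact ext_ne _ _ _ _ h
  right_inv p := by
    refine Prod.ext (ext_c _ _ _) ?_
    funext i
    exact ext_ne _ _ _ _ i.2

private theorem sum_spl {β ι : Type} [Fintype β] [DecidableEq β] [Fintype ι] [DecidableEq ι] (c : ι)
    (F : (ι → β) → ℝ) : ∑ x, F x = ∑ o : β, ∑ x : {j : ι // j ≠ c} → β, F (ext c o x) := by
  rw [← Fintype.sum_prod_type']
  refine Fintype.sum_equiv (spl c) _ _ fun x => ?_
  congr 1
  exact ((spl c).left_inv x).symm

private theorem nn_spl {β ι : Type} [Fintype β] [DecidableEq β] [Fintype ι] [DecidableEq ι] (c : ι) :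
    nn β ι = Fintype.card β * nn β {j : ι // j ≠ c} := by
  unfold nn
  rw [Fintype.card_congr (spl (β := β) c), Fintype.card_prod]
  push_cast
  rfl

/-- the new equivalence -/
private theorem newe {m : ℕ} {ι ι₂ : Type} [DecidableEq ι] (c : ι) (e' : Fin m ⊕ ι₂ ≃ {j : ι // j ≠ c}) :
    ∃ e : Fin (m + 1) ⊕ ι₂ ≃ ι, e (Sum.inl 0) = c ∧ (∀ j : Fin m, e (Sum.inl j.succ) = (e' (Sum.inl j)).1) ∧
      ∀ y, e (Sum.inr y) = (e' (Sum.inr y)).1 := by
  let f : Fin (m + 1) ⊕ ι₂ → ι := Sum.elim (Fin.cons c fun j => (e' (Sum.inl j)).1)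
    fun y => (e' (Sum.inr y)).1
  have f0 : f (Sum.inl 0) = c := rfl
  have f1 : ∀ j : Fin m, f (Sum.inl j.succ) = (e' (Sum.inl j)).1 := fun j => rfl
  have f2 : ∀ y, f (Sum.inr y) = (e' (Sum.inr y)).1 := fun y => rfl
  have hb : Function.Bijective f := by
    constructor
    · intro a b hab
      rcases a with a | a
      · rcases b with b | b
        · induction a using Fin.cases with
          | zero =>
            induction b using Fin.cases with
            | zero => rfl
            | succ b =>
              rw [f0, f1] at hab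
              exact absurd hab.symm (e' (Sum.inl b)).2
          | succ a =>
            induction b using Fin.cases with
            | zero =>
              rw [f0, f1] at hab
              exact absurd hab (e' (Sum.inl a)).2
            | succ b =>
              rw [f1, f1] at hab
              have h := e'.injective (Subtype.ext hab)
              rw [Sum.inl.injEq] at h
              rw [h]
        · induction a using Fin.cases with
          | zero =>
            rw [f0, f2] at hab
            exact absurd hab.symm (e' (Sum.inr b)).2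
          | succ a =>
            rw [f1, f2] at hab
            have h := e'.injective (Subtype.ext hab)
            simp at h
      · rcases b with b | b
        · induction b using Fin.cases with
          | zero =>
            rw [f0, f2] at hab
            exact absurd hab (e' (Sum.inr a)).2
          | succ b =>
            rw [f1, f2] at hab
            have h := e'.injective (Subtype.ext hab)
            simp at h
        · rw [f2, f2] at hab
          have h := e'.injective (Subtype.ext hab)
          rw [Sum.inr.injEq] at h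
          rw [h]
    · intro i
      by_cases h : i = c
      · exact ⟨Sum.inl 0, by rw [f0, h]⟩
      · have h2 := e'.apply_symm_apply ⟨i, h⟩
        rcases h3 : e'.symm ⟨i, h⟩ with j | y
        · refine ⟨Sum.inl j.succ, ?_⟩
          rw [f1, ← h3, h2]
        · refine ⟨Sum.inr y, ?_⟩
          rw [f2, ← h3, h2]
  exact ⟨Equiv.ofBijective f hb, f0, f1, f2⟩

theorem free_many (α : Type) [Fintype α] [DecidableEq α] [Nonempty α] (m : ℕ) :
    ∀ ε : ℝ, 0 < ε → ∃ N : ℕ, ∀ (ι : Type) [Fintype ι] [DecidableEq ι], N ≤ Fintype.card ι →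
      ∀ F : (ι → Option α) → ℝ, (∀ x, 0 ≤ F x) → (∀ x, F x ≤ 1) →
      ∃ (ι₂ : Type) (_ : Fintype ι₂) (_ : DecidableEq ι₂) (e : Fin m ⊕ ι₂ ≃ ι) (u : ι₂ → Option α),
        (∑ x, F x) / nn (Option α) ι - ε ≤
          (∑ w : Fin m → α, F (fun i => Sum.elim (fun j => some (w j)) u (e.symm i))) /
            nn α (Fin m) := by
  induction m with
  | zero =>
    intro ε hε
    refine ⟨0, fun ι _ _ _ F _ _ => ?_⟩
    have hn : 0 < nn (Option α) ι := nn_pos
    obtain ⟨u, hu⟩ : ∃ u, (∑ x, F x) / nn (Option α) ι ≤ F u := by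
      by_contra hcon
      push Not at hcon
      have h1 : ∑ x, F x < ∑ _x : ι → Option α, (∑ x, F x) / nn (Option α) ι :=
        Finset.sum_lt_sum_of_nonempty univ_nonempty fun x _ => hcon x
      rw [sum_const, card_univ, nsmul_eq_mul] at h1
      have h2 : ((Fintype.card (ι → Option α) : ℕ) : ℝ) = nn (Option α) ι := rfl
      rw [h2, mul_div_cancel₀ _ hn.ne'] at h1
      exact lt_irrefl _ h1
    refine ⟨ι, inferInstance, inferInstance, Equiv.emptySum (Fin 0) ι, u, ?_⟩
    have h3 : nn α (Fin 0) = 1 := by
      unfold nn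
      simp
    have h4 : ∀ w : Fin 0 → α, (fun i => Sum.elim (fun j => some (w j)) u
        ((Equiv.emptySum (Fin 0) ι).symm i)) = u := by
      intro w
      funext i
      simp
    simp_rw [h4]
    rw [sum_const, card_univ, h3, div_one]
    have h5 : Fintype.card (Fin 0 → α) = 1 := by simp
    rw [h5, one_smul]
    linarith
  | succ m ih =>
    intro ε hε
    obtain ⟨N1, hN1⟩ := ih (ε / 2) (by positivity)
    obtain ⟨N2, hN2⟩ := exists_nat_ge (4 / ε ^ 2)
    refine ⟨N1 + N2 + 1, fun ι _ _ hcard F h0 h1 => ?_⟩
    have hpos : 0 < Fintype.card ι := by omega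
    have : Nonempty ι := Fintype.card_pos_iff.1 hpos
    obtain ⟨c, hc⟩ := free_one F h0 h1
    set k : ℝ := (Fintype.card α : ℝ) with hk
    have hk0 : 0 < k := by
      rw [hk]
      exact_mod_cast Fintype.card_pos
    have hn : 0 < nn (Option α) ι := nn_pos
    have hn' : 0 < nn (Option α) {j : ι // j ≠ c} := nn_pos
    have hnn : nn (Option α) ι = (k + 1) * nn (Option α) {j : ι // j ≠ c} := by
      rw [nn_spl c, Fintype.card_option]
      push_cast
      rfl
    let F' : ({j : ι // j ≠ c} → Option α) → ℝ := fun x' => (∑ a : α, F (ext c (some a) x')) / k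
    have hF0 : ∀ x', 0 ≤ F' x' := fun x' => div_nonneg (sum_nonneg fun a _ => h0 _) hk0.le
    have hF1 : ∀ x', F' x' ≤ 1 := by
      intro x'
      simp only [F']
      rw [div_le_one hk0]
      calc ∑ a : α, F (ext c (some a) x') ≤ ∑ _a : α, (1 : ℝ) := sum_le_sum fun a _ => h1 _
        _ = k := by rw [sum_const, card_univ, nsmul_eq_mul, mul_one]
    have hcard' : N1 ≤ Fintype.card {j : ι // j ≠ c} := by
      rw [Fintype.card_subtype_compl, Fintype.card_subtype_eq]
      omega
    obtain ⟨ι₂, i1, i2, e', u, hu⟩ := hN1 _ hcard' F' hF0 hF1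
    obtain ⟨e, he0, he1, he2⟩ := newe c e'
    refine ⟨ι₂, i1, i2, e, u, ?_⟩
    -- the sum of `F'`
    have hsumF : ∑ x', F' x' = (∑ x ∈ univ.filter (fun x : ι → Option α => x c ≠ none), F x) / k := by
      have h2 : ∑ x ∈ univ.filter (fun x : ι → Option α => x c ≠ none), F x =
          ∑ a : α, ∑ x' : {j : ι // j ≠ c} → Option α, F (ext c (some a) x') := by
        rw [sum_filter, sum_spl c]
        simp_rw [ext_c]
        rw [Fintype.sum_option]
        simp
      rw [h2, sum_comm, sum_div]
    have hsq : nn (Option α) ι / Real.sqrt (Fintype.card ι) ≤ nn (Option α) ι * (ε / 2) := by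
      rw [div_eq_mul_inv]
      refine mul_le_mul_of_nonneg_left ?_ hn.le
      have h3 : (2 / ε) ≤ Real.sqrt (Fintype.card ι) := by
        apply Real.le_sqrt_of_sq_le
        have h4 : (2 / ε) ^ 2 = 4 / ε ^ 2 := by
          rw [div_pow]
          norm_num
        rw [h4]
        refine hN2.trans ?_
        exact_mod_cast (by omega : N2 ≤ Fintype.card ι)
      have h5 : 0 < 2 / ε := by positivity
      calc (Real.sqrt (Fintype.card ι))⁻¹ ≤ (2 / ε)⁻¹ := inv_anti₀ h5 h3
        _ = ε / 2 := by rw [inv_div]
    have havg : (∑ x, F x) / nn (Option α) ι - ε / 2 ≤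
        (∑ x', F' x') / nn (Option α) {j : ι // j ≠ c} := by
      rw [hsumF]
      have h6 : (∑ x ∈ univ.filter (fun x : ι → Option α => x c ≠ none), F x) / k /
          nn (Option α) {j : ι // j ≠ c} =
          ((k + 1) / k * ∑ x ∈ univ.filter (fun x : ι → Option α => x c ≠ none), F x) /
            nn (Option α) ι := by
        rw [hnn]
        have : k + 1 ≠ 0 := by positivity
        field_simp
      rw [h6, le_div_iff₀ hn, sub_mul, div_mul_cancel₀ _ hn.ne']
      linarith
    -- the sum over `w`
    have hpt : ∀ (a : α) (w' : Fin m → α),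
        (fun i => Sum.elim (fun j => some ((Fin.cons a w' : Fin (m + 1) → α) j)) u (e.symm i)) =
        ext c (some a) (fun i' => Sum.elim (fun j => some (w' j)) u (e'.symm i')) := by
      intro a w'
      funext i
      by_cases h : i = c
      · subst h
        rw [ext_c]
        have h7 : e.symm i = Sum.inl 0 := by rw [Equiv.symm_apply_eq, he0]
        rw [h7]
        rfl
      · rw [ext_ne _ _ _ _ h]
        have h8 := e'.apply_symm_apply ⟨i, h⟩
        rcases h9 : e'.symm ⟨i, h⟩ with j | y
        · have h10 : e.symm i = Sum.inl j.succ := by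
            rw [Equiv.symm_apply_eq, he1, ← h9, h8]
          rw [h10]
          simp
        · have h10 : e.symm i = Sum.inr y := by
            rw [Equiv.symm_apply_eq, he2, ← h9, h8]
          rw [h10]
          simp
    have hsumw : ∑ w : Fin (m + 1) → α, F (fun i => Sum.elim (fun j => some (w j)) u (e.symm i)) =
        k * ∑ w' : Fin m → α, F' (fun i' => Sum.elim (fun j => some (w' j)) u (e'.symm i')) := by
      have h11 : ∑ w : Fin (m + 1) → α, F (fun i => Sum.elim (fun j => some (w j)) u (e.symm i)) =
          ∑ a : α, ∑ w' : Fin m → α,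
            F (ext c (some a) (fun i' => Sum.elim (fun j => some (w' j)) u (e'.symm i'))) := by
        rw [← Fintype.sum_prod_type']
        refine (Fintype.sum_equiv (Fin.consEquiv (fun _ : Fin (m + 1) => α)) _ _ fun p => ?_).symm
        rw [← hpt]
        rfl
      rw [h11, sum_comm, mul_sum]
      refine sum_congr rfl fun w' _ => ?_
      simp only [F']
      rw [mul_div_cancel₀ _ hk0.ne']
    have hnm : nn α (Fin (m + 1)) = k * nn α (Fin m) := by
      unfold nn
      rw [Fintype.card_fun, Fintype.card_fun, Fintype.card_fin, Fintype.card_fin, pow_succ]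
      push_cast
      ring
    have hnm0 : 0 < nn α (Fin m) := nn_pos
    rw [hsumw, hnm, mul_div_mul_left _ _ hk0.ne']
    linarith

end Pool.SZ
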