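import Pool.Agent.Lib.MP_c77da8_nt.SZ.Defs

/-!
# SZ-RO: making one coordinate free of the letter `none`

PROOF.  `k = card α ≥ 1`, `n = card ι ≥ 1`, alphabet `Option α` of size `k + 1`.  For a point `x` put
`ξ_c(x) = ((k+1)/k) [x c ≠ none] - 1`.  Over all points: `∑_x ξ_c = 0`, `∑_x ξ_c² ≤ nn`, `∑_x ξ_c ξ_d = 0` for `c ≠ d`
(the coordinates are independent; the sum over the points is a product over the coordinates).
Hence `∑_x (∑_c ξ_c)² ≤ n nn`, and by Cauchy-Schwarz `|∑_x F(x) ∑_c ξ_c(x)| ≤ √(nn) √(n nn) = √n nn`.  So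
`∑_c [((k+1)/k) ∑_{x c ≠ none} F x - ∑_x F x] = ∑_x F(x) ∑_c ξ_c(x) ≥ - √n nn`, and some `c` has
`((k+1)/k) ∑_{x c ≠ none} F x - ∑_x F x ≥ - nn/√n`.
-/

set_option autoImplicit false

namespace Pool.SZ

open Finset

/-- the centred indicator of the letters different from `none` -/
noncomputable def gRO (α : Type) [Fintype α] (b : Option α) : ℝ :=
  ((Fintype.card α + 1 : ℝ) / (Fintype.card α : ℝ)) * (if b ≠ none then 1 else 0) - 1

theorem gRO_sum (α : Type) [Fintype α] [DecidableEq α] [Nonempty α] :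
    ∑ b : Option α, gRO α b = 0 := by
  have hk : (0 : ℝ) < (Fintype.card α : ℝ) := by exact_mod_cast Fintype.card_pos
  rw [Fintype.sum_option]
  have h1 : gRO α none = -1 := by
    unfold gRO
    simp
  have h2 : ∀ a : α, gRO α (some a) = 1 / (Fintype.card α : ℝ) := by
    intro a
    unfold gRO
    simp only [ne_eq, reduceCtorEq, not_false_eq_true, if_true]
    field_simp
    ring
  rw [h1, Finset.sum_congr rfl (fun a _ => h2 a), Finset.sum_const, nsmul_eq_mul]
  rw [Finset.card_univ]
  field_simp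
  ring

theorem gRO_sq (α : Type) [Fintype α] [Nonempty α] (b : Option α) :
    gRO α b * gRO α b ≤ 1 := by
  have hk : (1 : ℝ) ≤ (Fintype.card α : ℝ) := by exact_mod_cast Fintype.card_pos
  cases b with
  | none =>
    unfold gRO
    simp
  | some a =>
    have h2 : gRO α (some a) = 1 / (Fintype.card α : ℝ) := by
      unfold gRO
      simp only [ne_eq, reduceCtorEq, not_false_eq_true, if_true]
      field_simp
      ring
    rw [h2]
    have h3 : 1 / (Fintype.card α : ℝ) ≤ 1 := by
      rw [div_le_one (by linarith)]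
      exact hk
    have h4 : 0 ≤ 1 / (Fintype.card α : ℝ) := by positivity
    nlinarith

theorem gRO_orth {α ι : Type} [Fintype α] [DecidableEq α] [Nonempty α] [Fintype ι] [DecidableEq ι]
    (c d : ι) (hcd : c ≠ d) : ∑ x : ι → Option α, gRO α (x c) * gRO α (x d) = 0 := by
  have h := Finset.prod_univ_sum (fun _ : ι => (univ : Finset (Option α)))
    (fun i b => (if i = c then gRO α b else 1) * (if i = d then gRO α b else 1))
  rw [Fintype.piFinset_univ] at h
  have hz : ∏ i : ι, ∑ b ∈ (univ : Finset (Option α)),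
      ((if i = c then gRO α b else 1) * (if i = d then gRO α b else 1)) = 0 := by
    apply Finset.prod_eq_zero (Finset.mem_univ c)
    simp only [if_true, if_neg hcd, mul_one]
    exact gRO_sum α
  rw [hz] at h
  rw [h]
  apply Finset.sum_congr rfl
  intro x _
  rw [Finset.prod_mul_distrib]
  simp

theorem gRO_energy {α ι : Type} [Fintype α] [DecidableEq α] [Nonempty α] [Fintype ι] [DecidableEq ι] :
    ∑ x : ι → Option α, (∑ c : ι, gRO α (x c)) ^ 2 ≤ (Fintype.card ι : ℝ) * nn (Option α) ι := by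
  have h1 : ∑ x : ι → Option α, (∑ c : ι, gRO α (x c)) ^ 2 =
      ∑ c : ι, ∑ d : ι, ∑ x : ι → Option α, gRO α (x c) * gRO α (x d) := by
    have e1 : ∀ x : ι → Option α, (∑ c : ι, gRO α (x c)) ^ 2 =
        ∑ c : ι, ∑ d : ι, gRO α (x c) * gRO α (x d) := by
      intro x
      rw [sq, Finset.sum_mul_sum]
    rw [Finset.sum_congr rfl (fun x _ => e1 x), Finset.sum_comm]
    apply Finset.sum_congr rfl
    intro c _
    rw [Finset.sum_comm]
  rw [h1]
  have h2 : ∀ c : ι, ∑ d : ι, ∑ x : ι → Option α, gRO α (x c) * gRO α (x d) ≤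
      nn (Option α) ι := by
    intro c
    rw [Finset.sum_eq_single c]
    · calc ∑ x : ι → Option α, gRO α (x c) * gRO α (x c) ≤ ∑ _x : ι → Option α, (1 : ℝ) :=
            Finset.sum_le_sum (fun x _ => gRO_sq α (x c))
        _ = nn (Option α) ι := by
            unfold nn
            simp
    · intro d _ hd
      exact gRO_orth c d (fun h => hd h.symm)
    · intro h
      exact absurd (Finset.mem_univ c) h
  calc ∑ c : ι, ∑ d : ι, ∑ x : ι → Option α, gRO α (x c) * gRO α (x d)
      ≤ ∑ _c : ι, nn (Option α) ι := Finset.sum_le_sum (fun c _ => h2 c)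
    _ = (Fintype.card ι : ℝ) * nn (Option α) ι := by
        rw [Finset.sum_const, nsmul_eq_mul, Finset.card_univ]

theorem free_one {α ι : Type} [Fintype α] [DecidableEq α] [Nonempty α] [Fintype ι] [DecidableEq ι]
    [Nonempty ι] (F : (ι → Option α) → ℝ) (h0 : ∀ x, 0 ≤ F x) (h1 : ∀ x, F x ≤ 1) :
    ∃ c : ι, ∑ x, F x - nn (Option α) ι / Real.sqrt (Fintype.card ι) ≤
      ((Fintype.card α + 1 : ℝ) / (Fintype.card α : ℝ)) *
        ∑ x ∈ univ.filter (fun x : ι → Option α => x c ≠ none), F x := by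
  have hn : (0 : ℝ) < (Fintype.card ι : ℝ) := by exact_mod_cast Fintype.card_pos
  have hN : (0 : ℝ) ≤ nn (Option α) ι := by
    unfold nn
    positivity
  set n : ℝ := (Fintype.card ι : ℝ) with hndef
  set N : ℝ := nn (Option α) ι with hNdef
  set K : ℝ := (Fintype.card α + 1 : ℝ) / (Fintype.card α : ℝ) with hK
  have hsn : 0 < Real.sqrt n := Real.sqrt_pos.mpr hn
  -- Cauchy-Schwarz
  have hCS : (∑ x : ι → Option α, F x * ∑ c : ι, gRO α (x c)) ^ 2 ≤ N * (n * N) := by
    have h := Finset.sum_mul_sq_le_sq_mul_sq (univ : Finset (ι → Option α)) F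
      (fun x => ∑ c : ι, gRO α (x c))
    have hF : ∑ x : ι → Option α, F x ^ 2 ≤ N := by
      calc ∑ x : ι → Option α, F x ^ 2 ≤ ∑ _x : ι → Option α, (1 : ℝ) := by
            apply Finset.sum_le_sum
            intro x _
            have := h0 x
            have := h1 x
            nlinarith
        _ = N := by
            rw [hNdef]
            unfold nn
            simp
    have hE : ∑ x : ι → Option α, (∑ c : ι, gRO α (x c)) ^ 2 ≤ n * N := gRO_energy
    have hE0 : 0 ≤ ∑ x : ι → Option α, (∑ c : ι, gRO α (x c)) ^ 2 :=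
      Finset.sum_nonneg (fun x _ => sq_nonneg _)
    exact h.trans (mul_le_mul hF hE hE0 hN)
  have hlow : -(Real.sqrt n * N) ≤ ∑ x : ι → Option α, F x * ∑ c : ι, gRO α (x c) := by
    have hsq : (∑ x : ι → Option α, F x * ∑ c : ι, gRO α (x c)) ^ 2 ≤ (Real.sqrt n * N) ^ 2 := by
      rw [mul_pow, Real.sq_sqrt hn.le]
      nlinarith [hCS]
    exact (abs_le_of_sq_le_sq' hsq (by positivity)).1
  -- rewrite as a sum over the coordinates
  have hswap : ∑ x : ι → Option α, F x * ∑ c : ι, gRO α (x c) =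
      ∑ c : ι, (K * (∑ x ∈ univ.filter (fun x : ι → Option α => x c ≠ none), F x) - ∑ x, F x) := by
    have e1 : ∀ x : ι → Option α, F x * ∑ c : ι, gRO α (x c) = ∑ c : ι, F x * gRO α (x c) := by
      intro x
      rw [Finset.mul_sum]
    rw [Finset.sum_congr rfl (fun x _ => e1 x), Finset.sum_comm]
    apply Finset.sum_congr rfl
    intro c _
    rw [Finset.sum_filter, Finset.mul_sum, ← Finset.sum_sub_distrib]
    apply Finset.sum_congr rfl
    intro x _
    unfold gRO
    by_cases hx : x c ≠ none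
    · rw [if_pos hx, if_pos hx]
      ring
    · rw [if_neg hx, if_neg hx]
      ring
  by_contra hcon
  push Not at hcon
  have hlt : ∑ c : ι, (K * (∑ x ∈ univ.filter (fun x : ι → Option α => x c ≠ none), F x) - ∑ x, F x)
      < ∑ _c : ι, (-(N / Real.sqrt n)) := by
    apply Finset.sum_lt_sum_of_nonempty Finset.univ_nonempty
    intro c _
    have := hcon c
    linarith
  rw [Finset.sum_const, nsmul_eq_mul, Finset.card_univ] at hlt
  have hid : (Fintype.card ι : ℝ) * (-(N / Real.sqrt n)) = -(Real.sqrt n * N) := by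
    rw [← hndef]
    have : n = Real.sqrt n * Real.sqrt n := (Real.mul_self_sqrt hn.le).symm
    have h3 : n * (N / Real.sqrt n) = Real.sqrt n * N := by
      rw [mul_div_assoc', div_eq_iff hsn.ne']
      nlinarith [this]
    linarith
  rw [hid, ← hswap] at hlt
  linarith

end Pool.SZ
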