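import Pool.Agent.Lib.MP_c77da8_nt.SZ.Good
import Pool.Agent.Lib.MP_c77da8_nt.SZ.ColC

/-!
# SZ-Step: a line-free set with many points all of whose `α`-replacements lie in the set

Let `0 < δ ≤ 1` and suppose `DHJ (Option α) δ'` for all `δ' > δ`, and `DHJ α ε` for all `ε > 0`.

PROOF.  `m₁` = `N` of `DHJ α (δ/4)`, `L = card (Fin m₁ → α ⊕ Unit)`, `θ = δ/4/L`, `γ = θ/4`  (`θ ≤ 1/4`).
Given `m₀`, `η₁` (we may assume `η₁ ≤ 1`):  `η₃ = η₂ = min (η₁ θ/16) (δ/2)`; `m ≥ max m₀ m₁`, `m ≥ N` of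
`DHJ (Option α) (δ + η₃)`, and `(k/(k+1))^m ≤ 1/2` (`k = card α`, `m ≥ k + 1` will do, or `exists_pow_lt_of_lt_one`).
`ι₁` from `grl (Option α) m`; `n₁ = nn (Option α) ι₁`, `η' = min (η₂/(2 n₁)) (...)`, `N = card ι₁ + ` the `N` of
`DHJ (Option α) (δ + η')`.
Let `A ⊆ (ι → Option α)`, `dn A ≥ δ - η'`, without a line.  `ι ≃ ι₁ ⊕ ι₂` (`split_type`, `reidx`).  All `secL A x` are
without line (`sub_secL`), so `dn (secL A x) < δ + η'`, and by `all_sec` `dn (secL A x) ≥ δ - η₂ ≥ δ/2`.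
Colour the lines `l : ι₁ → Option α ⊕ Unit` by `true` if `dn (goodT A l) ≥ θ`, `false` otherwise; `grl` gives
`V : ι₁ → Option α ⊕ Fin m`, all of whose lines have the colour `b`.  `V` contains an `m₁`-dimensional subspace `cmp V U`
(`U : Fin m → Option α ⊕ Fin m₁`, surjective onto the directions, as `m₁ ≤ m`), which by `good_line` contains a good line
`cmp (cmp V U) (lift z) = cmp V (cmp U (lift z))`.  So `b = true`.
For `y : Fin m → Option α` with at least one letter `none` the word `l_y` (`inr ()` where `y = none`, `inl (y e)` elsewhere) is a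
line with `ev l_y (some i) = rep i y`; so `dn (goodT A (cmp V l_y)) ≥ θ`, i.e. for at least `θ nn` of the `t` all the points
`(ev V (rep i y), t)` lie in `A`.  For `t` put `A_t = {y : Fin m → Option α | (ev V y, t) ∈ A}` (line-free: `sub_comp`,
`sub_secR`); then `∑_t dn (Cset A_t) = avg over y ≥ θ * (fraction of the y with a letter none) ≥ θ/2` on average.  So at
least `(θ/4) nn (Option α) ι₂` of the `t` have `dn (Cset A_t) ≥ θ/4 = γ` (`many`).  Further `dn A_t < δ + η₃` for all `t`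
(`m ≥ N`), while the average of `dn A_t` is `≥ δ - η₂` (the average over `y` of `dn (secL A (ev V y))`); so the proportion
`p` of the `t` with `dn A_t < δ - η₁` satisfies `δ - η₂ ≤ p (δ - η₁) + (1-p)(δ + η₃)`, `p ≤ (η₂+η₃)/η₁ ≤ θ/8 < θ/4`.
Hence there is a `t` with both properties; `A' = A_t`.
-/

set_option autoImplicit false

namespace Pool.SZ

open Finset

private theorem cmp_assoc' {α ι η θ κ : Type} (W : ι → α ⊕ η) (U : η → α ⊕ θ) (Z : θ → α ⊕ κ) :
    cmp (cmp W U) Z = cmp W (cmp U Z) := by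
  funext i
  unfold cmp
  cases W i <;> rfl

private theorem pr_lift {α : Type} {m : ℕ} (z : Fin m → α ⊕ Unit) (hz : Pr z) : Pr (lift z) := by
  intro e
  obtain ⟨i, hi⟩ := hz e
  refine ⟨i, ?_⟩
  unfold lift
  rw [hi]
  rfl

/-- the line of a point: `inr ()` where the letter is `none` -/
private def ly {α : Type} {m : ℕ} (y : Fin m → Option α) : Fin m → Option α ⊕ Unit :=
  fun e => (y e).elim (Sum.inr ()) (fun a => Sum.inl (some a))

private theorem ev_ly {α : Type} {m : ℕ} (y : Fin m → Option α) (i : α) :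
    ev (ly y) (fun _ => some i) = rep i y := by
  funext e
  unfold ev ly rep
  cases y e <;> rfl

private theorem pr_ly {α : Type} {m : ℕ} (y : Fin m → Option α) (hy : ∃ e, y e = none) :
    Pr (ly y) := by
  intro u
  obtain ⟨e, he⟩ := hy
  refine ⟨e, ?_⟩
  unfold ly
  rw [he]
  rfl

/-- the number of words without the letter `none` -/
private theorem card_no_none (α : Type) [Fintype α] [DecidableEq α] (m : ℕ) :
    ((univ.filter fun y : Fin m → Option α => ¬ ∃ e, y e = none).card : ℝ) ≤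
      (Fintype.card α : ℝ) ^ m := by
  classical
  have h1 : (univ.filter fun y : Fin m → Option α => ¬ ∃ e, y e = none) ⊆
      (univ : Finset (Fin m → α)).image (fun z e => some (z e)) := by
    intro y hy
    rw [Finset.mem_filter] at hy
    have h2 : ∀ e, ∃ a, y e = some a := fun e =>
      Option.ne_none_iff_exists'.1 (fun h => hy.2 ⟨e, h⟩)
    choose z hz using h2
    rw [Finset.mem_image]
    exact ⟨z, Finset.mem_univ _, funext fun e => (hz e).symm⟩
  have h2 := (Finset.card_le_card h1).trans Finset.card_image_le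
  rw [Finset.card_univ, Fintype.card_fun, Fintype.card_fin] at h2
  exact_mod_cast h2

private theorem ex_pow (k : ℕ) : ∃ m₂ : ℕ, ∀ m : ℕ, m₂ ≤ m →
    (k : ℝ) ^ m ≤ 1 / 2 * ((k : ℝ) + 1) ^ m := by
  have hk : (0 : ℝ) ≤ k := Nat.cast_nonneg k
  have h0 : (0 : ℝ) ≤ (k : ℝ) / (k + 1) := by positivity
  have h1 : (k : ℝ) / (k + 1) < 1 := by
    rw [div_lt_one (by positivity)]
    linarith
  obtain ⟨m₂, hm₂⟩ := exists_pow_lt_of_lt_one (show (0 : ℝ) < 1 / 2 by norm_num) h1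
  refine ⟨m₂, fun m hm => ?_⟩
  have h2 : ((k : ℝ) / (k + 1)) ^ m ≤ 1 / 2 :=
    (pow_le_pow_of_le_one h0 h1.le hm).trans hm₂.le
  rw [div_pow, div_le_iff₀ (by positivity)] at h2
  exact h2

/-- the counting argument -/
private theorem core_count {β : Type} [Fintype β] (f g : β → ℝ) (δ η₁ η₂ θ : ℝ) (hη₁ : 0 < η₁)
    (hθ : 0 < θ) (hη₂ : η₂ ≤ η₁ * θ / 16) (hη₂0 : 0 ≤ η₂)
    (hβ : 0 < Fintype.card β)
    (hf : ∀ t, f t < δ + η₂) (hfs : (δ - η₂) * (Fintype.card β : ℝ) ≤ ∑ t, f t)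
    (hg : θ / 4 * (Fintype.card β : ℝ) ≤ ((univ.filter fun t => θ / 4 ≤ g t).card : ℝ)) :
    ∃ t, δ - η₁ ≤ f t ∧ θ / 4 ≤ g t := by
  classical
  by_contra hcon
  push Not at hcon
  have hn : (0 : ℝ) < (Fintype.card β : ℝ) := by exact_mod_cast hβ
  obtain ⟨G, hG⟩ : ∃ G : Finset β, G = univ.filter fun t => θ / 4 ≤ g t := ⟨_, rfl⟩
  rw [← hG] at hg
  have h1 : ∀ t ∈ G, f t ≤ δ - η₁ := by
    intro t ht
    by_contra hlt
    push Not at hlt
    rw [hG, Finset.mem_filter] at ht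
    exact absurd ht.2 (not_le.2 (hcon t hlt.le))
  have h2 : ∑ t, f t = ∑ t ∈ G, f t + ∑ t ∈ Gᶜ, f t := (Finset.sum_add_sum_compl G f).symm
  have h3 : ∑ t ∈ G, f t ≤ (G.card : ℝ) * (δ - η₁) := by
    have := Finset.sum_le_card_nsmul G f (δ - η₁) h1
    rwa [nsmul_eq_mul] at this
  have h4 : ∑ t ∈ Gᶜ, f t ≤ ((Gᶜ).card : ℝ) * (δ + η₂) := by
    have := Finset.sum_le_card_nsmul Gᶜ f (δ + η₂) (fun t _ => (hf t).le)
    rwa [nsmul_eq_mul] at this
  have h5 : ((Gᶜ).card : ℝ) = (Fintype.card β : ℝ) - (G.card : ℝ) := by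
    rw [Finset.card_compl, Nat.cast_sub (Finset.card_le_univ G)]
  rw [h5] at h4
  have h6 : (θ / 4 * (Fintype.card β : ℝ)) * (η₁ + η₂) ≤ (G.card : ℝ) * (η₁ + η₂) :=
    mul_le_mul_of_nonneg_right hg (by linarith)
  have h7 : 0 < η₁ * θ := mul_pos hη₁ hθ
  have h8 : 0 ≤ η₂ * θ := mul_nonneg hη₂0 hθ.le
  have h9 : (η₂ + η₂) * (Fintype.card β : ℝ) < (θ / 4 * (Fintype.card β : ℝ)) * (η₁ + η₂) := by
    have : (θ / 4 * (Fintype.card β : ℝ)) * (η₁ + η₂) =
        (θ / 4 * (η₁ + η₂)) * (Fintype.card β : ℝ) := by ring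
    rw [this]
    apply mul_lt_mul_of_pos_right _ hn
    nlinarith
  nlinarith

theorem step_one (α : Type) [Fintype α] [DecidableEq α] [Nonempty α]
    (hα : ∀ ε : ℝ, 0 < ε → DHJ α ε) (δ : ℝ) (hδ : 0 < δ) (hδ1 : δ ≤ 1)
    (H : ∀ δ' : ℝ, δ < δ' → DHJ (Option α) δ') :
    ∃ γ : ℝ, 0 < γ ∧ ∀ (m₀ : ℕ) (η₁ : ℝ), 0 < η₁ → ∃ m : ℕ, m₀ ≤ m ∧ ∃ η' : ℝ, 0 < η' ∧ ∃ N : ℕ,
      ∀ (ι : Type) [Fintype ι] [DecidableEq ι], N ≤ Fintype.card ι →
      ∀ A : Finset (ι → Option α), δ - η' ≤ dn A → HasSub Unit A ∨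
        ∃ A' : Finset (Fin m → Option α), ¬ HasSub Unit A' ∧ δ - η₁ ≤ dn A' ∧ γ ≤ dn (Cset A') := by
  classical
  obtain ⟨m₁, hm₁⟩ := hα (δ / 4) (by linarith)
  have hm₁' : ∀ E : Finset (Fin m₁ → α), δ / 4 ≤ dn E → HasSub Unit E := by
    intro E hE
    exact hm₁ (Fin m₁) (by rw [Fintype.card_fin]) E hE
  have hL : (0 : ℝ) < (Fintype.card (Fin m₁ → α ⊕ Unit) : ℝ) := by
    have : 0 < Fintype.card (Fin m₁ → α ⊕ Unit) := Fintype.card_pos
    exact_mod_cast this
  obtain ⟨θ, hθd⟩ : ∃ θ : ℝ, θ = δ / 4 / (Fintype.card (Fin m₁ → α ⊕ Unit) : ℝ) := ⟨_, rfl⟩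
  have hθ : 0 < θ := by rw [hθd]; positivity
  refine ⟨θ / 4, by linarith, fun m₀ η₁ hη₁ => ?_⟩
  obtain ⟨η₂, hη₂d⟩ : ∃ η₂ : ℝ, η₂ = min (η₁ * θ / 16) (δ / 2) := ⟨_, rfl⟩
  have hη₂ : 0 < η₂ := by
    rw [hη₂d]
    exact lt_min (by positivity) (by linarith)
  have hη₂a : η₂ ≤ η₁ * θ / 16 := by rw [hη₂d]; exact min_le_left _ _
  have hη₂b : η₂ ≤ δ / 2 := by rw [hη₂d]; exact min_le_right _ _
  obtain ⟨N₃, hN₃⟩ := H (δ + η₂) (by linarith)
  obtain ⟨m₂, hm₂⟩ := ex_pow (Fintype.card α)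
  obtain ⟨m, hmd⟩ : ∃ m : ℕ, m = max (max m₀ m₁) (max N₃ m₂) := ⟨_, rfl⟩
  have hmm₀ : m₀ ≤ m := by rw [hmd]; exact (le_max_left _ _).trans (le_max_left _ _)
  have hmm₁ : m₁ ≤ m := by rw [hmd]; exact (le_max_right _ _).trans (le_max_left _ _)
  have hmN₃ : N₃ ≤ m := by rw [hmd]; exact (le_max_left _ _).trans (le_max_right _ _)
  have hmm₂ : m₂ ≤ m := by rw [hmd]; exact (le_max_right _ _).trans (le_max_right _ _)
  obtain ⟨ι₁, hι₁a, hι₁b, hι₁⟩ := grl (Option α) m
  have hn₁ : 0 < nn (Option α) ι₁ := nn_pos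
  obtain ⟨η', hη'd⟩ : ∃ η' : ℝ, η' = η₂ / (2 * nn (Option α) ι₁) := ⟨_, rfl⟩
  have hη' : 0 < η' := by rw [hη'd]; positivity
  have hη'2 : 2 * nn (Option α) ι₁ * η' = η₂ := by
    rw [hη'd]
    field_simp
  obtain ⟨N₄, hN₄⟩ := H (δ + η') (by linarith)
  refine ⟨m, hmm₀, η', hη', Fintype.card ι₁ + N₄, fun ι _ _ hcard A hA => ?_⟩
  by_cases hline : HasSub Unit A
  · exact Or.inl hline
  right
  obtain ⟨ι₂, hι₂a, hι₂b, e, hι₂⟩ := split_type (κ := ι₁) (ι := ι) N₄ hcard
  obtain ⟨A₂, hA₂d⟩ : ∃ A₂ : Finset (ι₁ ⊕ ι₂ → Option α),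
      A₂ = univ.filter fun x : ι₁ ⊕ ι₂ → Option α => (fun i => x (e.symm i)) ∈ A := ⟨_, rfl⟩
  have hA₂ : δ - η' ≤ dn A₂ := by
    rw [hA₂d, dn_reidx]
    exact hA
  have hA₂l : ¬ HasSub Unit A₂ := fun h => hline (reidx e A (by rwa [hA₂d] at h))
  have hup : ∀ x, dn (secL A₂ x) ≤ δ + η' := by
    intro x
    by_contra hcon
    push Not at hcon
    exact hA₂l (sub_secL A₂ x (hN₄ ι₂ hι₂ _ hcon.le))
  have hlow : ∀ x, δ - η₂ ≤ dn (secL A₂ x) := by
    intro x
    have h1 := all_sec A₂ δ η' hη'.le hA₂ hup x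
    rwa [hη'2] at h1
  have hlow2 : ∀ x, δ / 2 ≤ dn (secL A₂ x) := fun x => by
    have := hlow x
    linarith
  -- the colouring of the lines
  obtain ⟨V, hV, b, hb⟩ := hι₁ (fun l => decide (θ ≤ dn (goodT A₂ l)))
  have hbt : ∀ l : Fin m → Option α ⊕ Unit, Pr l → θ ≤ dn (goodT A₂ (cmp V l)) := by
    obtain ⟨U, hUd⟩ : ∃ U : Fin m → Option α ⊕ Fin m₁, U = fun e =>
        if h : e.val < m₁ then Sum.inr ⟨e.val, h⟩ else Sum.inl none := ⟨_, rfl⟩
    have hU : Pr U := by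
      intro j
      refine ⟨⟨j.val, lt_of_lt_of_le j.2 hmm₁⟩, ?_⟩
      rw [hUd]
      simp
    obtain ⟨z, hz1, hz2⟩ := good_line m₁ δ hδ hm₁' A₂ hlow2 (cmp V U) (pr_cmp V U hV hU)
    rw [cmp_assoc', ← hθd] at hz2
    have h1 := hb (cmp U (lift z)) (pr_cmp U (lift z) hU (pr_lift z hz1))
    rw [decide_eq_true hz2] at h1
    intro l hl
    have h2 := hb l hl
    rw [← h1] at h2
    exact of_decide_eq_true h2
  -- the sets `A_t`
  obtain ⟨At, hAtd⟩ : ∃ At : (ι₂ → Option α) → Finset (Fin m → Option α),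
      At = fun t => univ.filter fun y => Sum.elim (ev V y) t ∈ A₂ := ⟨_, rfl⟩
  have hmem : ∀ t y, y ∈ At t ↔ Sum.elim (ev V y) t ∈ A₂ := by
    intro t y
    rw [hAtd]
    simp
  have hAtl : ∀ t, ¬ HasSub Unit (At t) := by
    intro t h
    apply hA₂l
    apply sub_secR A₂ t
    apply sub_comp (secR A₂ t) V hV
    have e1 : (univ.filter fun z : Fin m → Option α => ev V z ∈ secR A₂ t) = At t := by
      ext z
      rw [hmem]
      simp [secR]
    rw [e1]
    exact h
  have hAtu : ∀ t, dn (At t) < δ + η₂ := by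
    intro t
    by_contra hcon
    push Not at hcon
    exact hAtl t (hN₃ (Fin m) (by rw [Fintype.card_fin]; exact hmN₃) _ hcon)
  have hn₂ : 0 < nn (Option α) ι₂ := nn_pos
  have hnm : 0 < nn (Option α) (Fin m) := nn_pos
  -- the average of the densities of the `A_t`
  have hAts : (δ - η₂) * (Fintype.card (ι₂ → Option α) : ℝ) ≤ ∑ t, dn (At t) := by
    have h1 : ∑ t, ((At t).card : ℝ) = ∑ y : Fin m → Option α, ((secL A₂ (ev V y)).card : ℝ) := by
      rw [hAtd]
      simp only [secL, Finset.card_filter]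
      push_cast
      exact Finset.sum_comm
    have h2 : ∑ y : Fin m → Option α, (δ - η₂) * nn (Option α) ι₂ ≤
        ∑ y : Fin m → Option α, ((secL A₂ (ev V y)).card : ℝ) := by
      apply Finset.sum_le_sum
      intro y _
      have h3 := hlow (ev V y)
      unfold dn at h3
      rwa [le_div_iff₀ hn₂] at h3
    rw [Finset.sum_const, Finset.card_univ, nsmul_eq_mul] at h2
    have h4 : ∑ t, dn (At t) = (∑ t, ((At t).card : ℝ)) / nn (Option α) (Fin m) := by
      rw [Finset.sum_div]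
      rfl
    rw [h4, h1, le_div_iff₀ hnm]
    refine le_trans (le_of_eq ?_) h2
    unfold nn
    ring
  -- the average of the densities of the sets `Cset A_t`
  have hCs : θ / 2 * (Fintype.card (ι₂ → Option α) : ℝ) ≤ ∑ t, dn (Cset (At t)) := by
    have h1 : ∑ t, ((Cset (At t)).card : ℝ) =
        ∑ y : Fin m → Option α, ((univ.filter fun t => y ∈ Cset (At t)).card : ℝ) := by
      have e1 : ∀ t, ((Cset (At t)).card : ℝ) =
          ∑ y : Fin m → Option α, (if y ∈ Cset (At t) then (1 : ℝ) else 0) := by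
        intro t
        rw [Finset.sum_boole]
        congr 2
        ext y
        simp
      have e2 : ∀ y : Fin m → Option α, ((univ.filter fun t => y ∈ Cset (At t)).card : ℝ) =
          ∑ t, (if y ∈ Cset (At t) then (1 : ℝ) else 0) := by
        intro y
        rw [Finset.sum_boole]
      simp only [e1, e2]
      exact Finset.sum_comm
    have h2 : ∀ y : Fin m → Option α, (∃ e, y e = none) →
        θ * nn (Option α) ι₂ ≤ ((univ.filter fun t => y ∈ Cset (At t)).card : ℝ) := by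
      intro y hy
      have h3 := hbt (ly y) (pr_ly y hy)
      have e1 : goodT A₂ (cmp V (ly y)) = univ.filter fun t => y ∈ Cset (At t) := by
        ext t
        unfold goodT Cset
        simp only [Finset.mem_filter, Finset.mem_univ, true_and, hmem, ev_cmp, ev_ly]
      rw [e1] at h3
      unfold dn at h3
      rwa [le_div_iff₀ hn₂] at h3
    have h3 : θ * nn (Option α) ι₂ *
        ((univ.filter fun y : Fin m → Option α => ∃ e, y e = none).card : ℝ) ≤
        ∑ y : Fin m → Option α, ((univ.filter fun t => y ∈ Cset (At t)).card : ℝ) := by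
      have h4 := Finset.card_nsmul_le_sum
        (univ.filter fun y : Fin m → Option α => ∃ e, y e = none)
        (fun y => ((univ.filter fun t => y ∈ Cset (At t)).card : ℝ)) (θ * nn (Option α) ι₂)
        (fun y hy => h2 y (Finset.mem_filter.1 hy).2)
      rw [nsmul_eq_mul] at h4
      refine le_trans (le_of_eq (by ring)) (h4.trans ?_)
      exact Finset.sum_le_sum_of_subset_of_nonneg (Finset.filter_subset _ _)
        (fun y _ _ => Nat.cast_nonneg _)
    have h5 : 1 / 2 * nn (Option α) (Fin m) ≤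
        ((univ.filter fun y : Fin m → Option α => ∃ e, y e = none).card : ℝ) := by
      have h6 : ((univ.filter fun y : Fin m → Option α => ∃ e, y e = none).card : ℝ) +
          ((univ.filter fun y : Fin m → Option α => ¬ ∃ e, y e = none).card : ℝ) =
          nn (Option α) (Fin m) := by
        have := Finset.card_filter_add_card_filter_not (s := (univ : Finset (Fin m → Option α)))
          (fun y => ∃ e, y e = none)
        rw [Finset.card_univ] at this
        unfold nn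
        exact_mod_cast this
      have h7 := card_no_none α m
      have h8 := hm₂ m hmm₂
      have h9 : nn (Option α) (Fin m) = ((Fintype.card α : ℝ) + 1) ^ m := by
        unfold nn
        rw [Fintype.card_fun, Fintype.card_option, Fintype.card_fin]
        push_cast
        ring
      rw [← h9] at h8
      linarith
    have h10 : ∑ t, dn (Cset (At t)) = (∑ t, ((Cset (At t)).card : ℝ)) / nn (Option α) (Fin m) := by
      rw [Finset.sum_div]
      rfl
    rw [h10, h1, le_div_iff₀ hnm]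
    have h11 : 0 < θ * nn (Option α) ι₂ := by positivity
    have h12 := mul_le_mul_of_nonneg_left h5 h11.le
    refine le_trans (le_of_eq ?_) (h12.trans h3)
    unfold nn
    ring
  have hmany := many (fun t => dn (Cset (At t))) (fun t => dn_le_one _) (θ / 2) (by linarith) hCs
  have e4 : θ / 2 / 2 = θ / 4 := by ring
  rw [e4] at hmany
  obtain ⟨t, ht1, ht2⟩ := core_count (fun t => dn (At t)) (fun t => dn (Cset (At t))) δ η₁ η₂ θ hη₁
    hθ hη₂a hη₂.le (Fintype.card_pos) hAtu hAts hmany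
  exact ⟨At t, hAtl t, ht1, ht2⟩

end Pool.SZ
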