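import Pool.Agent.Lib.MP_c77da8_nt.SZ.InsSub

/-!
# SZ-TileA: tiling an insensitive set by subspaces (dual form)

`TileP M ρ c` says: for all large `ι`, every insensitive set `D`, every `g ≤ 1` and every `lam ≥ 0` such that the sum of
`g` over every `M`-dimensional subspace inside `D` is at most `lam` times the number of its points,
`∑_{x ∈ D} g x ≤ (lam + c) #D + ρ nn`.

PROOF.  `tileP_one`: `c = 1` is trivial (`g ≤ 1`).
`tileP_step`: let `n₁` = `N` of `ins_sub α hα M (ρ/2)`, `ι₁ = Fin n₁`, `L = card (Fin n₁ → Option α ⊕ Fin M)`, `β = (ρ/2)/L`,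
`β₁ = β nn (Option α) (Fin M) / nn (Option α) (Fin n₁)` (`0 < β₁ ≤ 1`).  Claim: `TileP M ρ c → TileP M ρ (c (1 - β₁))`
(`c ≥ 0`).  Let `ι ≃ Fin n₁ ⊕ ι₂` (`split_type`; transport `D`, `g`, subspaces along the equivalence), `ι₂` large.
If `dn D < ρ`: `∑_D g ≤ #D ≤ ρ nn`.  If `dn D ≥ ρ`: the `t : ι₂ → Option α` with `dn (secR D t) ≥ ρ/2` are at least
`(ρ/2) nn` many (`many`, `dn_secR`); `secR D t` is insensitive, so (`ins_sub`) it contains a subspace `W_t`; by `pig` there
is `W` with `B = {t | ∀ z, ev W z ∈ secR D t}`, `#B ≥ β nn (Option α) ι₂`.  `B` is insensitive.  Now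
`∑_D g = ∑_{t ∈ B} ∑_z g (ev W z, t) + ∑_x ∑_{t ∈ R_x} g (x, t)`, `R_x = secL D x` if `x` is not of the form `ev W z`, and
`secL D x \ B` if it is (`ev_inj`; `B ⊆ secL D x` then).  The first sum is `≤ #B lam nn (Option α) (Fin M)` (the word `W`
on the first block and constants `t` on the second one is a subspace in `D`).  `R_x` is insensitive and for `t ↦ g (x, t)`
the hypothesis holds (a subspace in `R_x` with the constants `x` is a subspace in `D`), so by `TileP M ρ c`: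
`∑_{t ∈ R_x} g ≤ (lam + c) #R_x + ρ nn (Option α) ι₂`.  Sum over `x`: `∑_x #R_x = #D - #B nn (Option α) (Fin M)`.  So
`∑_D g ≤ (lam + c) #D - c #B nn (Option α) (Fin M) + ρ nn ≤ (lam + c (1 - β₁)) #D + ρ nn`, as
`#B nn (Fin M) ≥ β nn ι₂ nn (Fin M) = β₁ nn ι ≥ β₁ #D`.
-/

set_option autoImplicit false

namespace Pool.SZ

open Finset

/-- see the header -/
def TileP (α : Type) [Fintype α] [DecidableEq α] (M : ℕ) (ρ c : ℝ) : Prop :=
  ∃ N : ℕ, ∀ (ι : Type) [Fintype ι] [DecidableEq ι], N ≤ Fintype.card ι →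
    ∀ (i : α) (D : Finset (ι → Option α)), Ins i D → ∀ g : (ι → Option α) → ℝ, (∀ x, g x ≤ 1) →
    ∀ lam : ℝ, 0 ≤ lam →
    (∀ W : ι → Option α ⊕ Fin M, Pr W → (∀ z, ev W z ∈ D) →
      ∑ z, g (ev W z) ≤ lam * nn (Option α) (Fin M)) →
    ∑ x ∈ D, g x ≤ (lam + c) * (D.card : ℝ) + ρ * nn (Option α) ι

private theorem tl_card_le {β ι : Type} [Fintype β] [Fintype ι] [DecidableEq ι]
    (D : Finset (ι → β)) : (D.card : ℝ) ≤ nn β ι := by
  unfold nn
  have h := Finset.card_le_univ D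
  exact_mod_cast h

theorem tileP_one (α : Type) [Fintype α] [DecidableEq α] [Nonempty α] (M : ℕ) (ρ : ℝ) (hρ : 0 < ρ) :
    TileP α M ρ 1 := by
  refine ⟨0, fun ι _ _ _ i D _ g hg lam hlam _ => ?_⟩
  have h1 : ∑ x ∈ D, g x ≤ (D.card : ℝ) := by
    calc ∑ x ∈ D, g x ≤ ∑ x ∈ D, (1 : ℝ) := Finset.sum_le_sum fun x _ => hg x
      _ = (D.card : ℝ) := by simp
  have h2 : (0 : ℝ) ≤ (D.card : ℝ) := Nat.cast_nonneg _
  have h3 : (0 : ℝ) ≤ nn (Option α) ι := le_of_lt nn_pos
  have h4 : 0 ≤ lam * (D.card : ℝ) := mul_nonneg hlam h2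
  have h5 : 0 ≤ ρ * nn (Option α) ι := mul_nonneg hρ.le h3
  linarith [add_mul lam 1 (D.card : ℝ), one_mul (D.card : ℝ)]

/-- the decomposition of a sum over `D` along the subspace `W` of the first block and the set `B` of points of the
second block -/
private theorem tl_dec {α κ θ η : Type} [Fintype α] [DecidableEq α] [Fintype κ] [DecidableEq κ] [Fintype θ]
    [DecidableEq θ] [Fintype η] [DecidableEq η] (D : Finset (κ ⊕ θ → α)) (W : κ → α ⊕ η) (hW : Pr W)
    (B : Finset (θ → α)) (hB : ∀ t ∈ B, ∀ z, Sum.elim (ev W z) t ∈ D) (R : (κ → α) → Finset (θ → α))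
    (hR : ∀ x t, t ∈ R x ↔ Sum.elim x t ∈ D ∧ ¬ ((∃ z, ev W z = x) ∧ t ∈ B)) (f : (κ ⊕ θ → α) → ℝ) :
    ∑ x ∈ D, f x = ∑ x, ∑ t ∈ R x, f (Sum.elim x t) + ∑ t ∈ B, ∑ z, f (Sum.elim (ev W z) t) := by
  classical
  have h1 : ∑ x ∈ D, f x = ∑ x : κ ⊕ θ → α, if x ∈ D then f x else 0 := by
    rw [← Finset.sum_filter]
    refine Finset.sum_congr ?_ fun _ _ => rfl
    ext x
    simp
  have h2 : ∀ (x : κ → α), ∑ t ∈ R x, f (Sum.elim x t) =
      ∑ t : θ → α, if t ∈ R x then f (Sum.elim x t) else 0 := by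
    intro x
    rw [← Finset.sum_filter]
    refine Finset.sum_congr ?_ fun _ _ => rfl
    ext t
    simp
  have h3 : ∑ t ∈ B, ∑ z, f (Sum.elim (ev W z) t) =
      ∑ x : κ → α, ∑ t : θ → α, if ((∃ z, ev W z = x) ∧ t ∈ B) then f (Sum.elim x t) else 0 := by
    rw [Finset.sum_comm]
    have h4 : ∀ x : κ → α, (∑ t : θ → α, if ((∃ z, ev W z = x) ∧ t ∈ B) then f (Sum.elim x t) else 0) =
        if x ∈ univ.image (ev W) then ∑ t ∈ B, f (Sum.elim x t) else 0 := by
      intro x
      by_cases hx : ∃ z, ev W z = x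
      · have hx' : x ∈ univ.image (ev W) := by
          obtain ⟨z, hz⟩ := hx
          exact mem_image.2 ⟨z, mem_univ _, hz⟩
        rw [if_pos hx', ← Finset.sum_filter]
        refine Finset.sum_congr ?_ fun _ _ => rfl
        ext t
        simp [hx]
      · have hx' : x ∉ univ.image (ev W) := by
          intro h
          obtain ⟨z, _, hz⟩ := mem_image.1 h
          exact hx ⟨z, hz⟩
        rw [if_neg hx']
        refine Finset.sum_eq_zero fun t _ => ?_
        rw [if_neg fun h => hx h.1]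
    rw [Finset.sum_congr rfl fun x _ => h4 x, ← Finset.sum_filter]
    have h5 : (univ.filter fun x : κ → α => x ∈ univ.image (ev W)) = univ.image (ev W) := by
      ext x
      simp
    rw [h5, Finset.sum_image fun a _ b _ h => ev_inj W hW h]
  rw [h1, sum_split, h3, Finset.sum_congr rfl fun x _ => h2 x, ← Finset.sum_add_distrib]
  refine Finset.sum_congr rfl fun x _ => ?_
  rw [← Finset.sum_add_distrib]
  refine Finset.sum_congr rfl fun t _ => ?_
  by_cases h6 : (∃ z, ev W z = x) ∧ t ∈ B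
  · have h7 : Sum.elim x t ∈ D := by
      obtain ⟨⟨z, hz⟩, ht⟩ := h6
      rw [← hz]
      exact hB t ht z
    have h8 : t ∉ R x := fun h => ((hR x t).1 h).2 h6
    rw [if_pos h7, if_neg h8, if_pos h6, zero_add]
  · by_cases h7 : Sum.elim x t ∈ D
    · have h8 : t ∈ R x := (hR x t).2 ⟨h7, h6⟩
      rw [if_pos h7, if_pos h8, if_neg h6, add_zero]
    · have h8 : t ∉ R x := fun h => h7 ((hR x t).1 h).1
      rw [if_neg h7, if_neg h8, if_neg h6, add_zero]

private theorem tl_core (α : Type) [Fintype α] [DecidableEq α] (M : ℕ) (ρ c lam : ℝ)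
    (hρ : 0 < ρ) (hc : 0 ≤ c) (κ θ : Type) [Fintype κ] [DecidableEq κ] [Fintype θ] [DecidableEq θ]
    (i : α) (D : Finset (κ ⊕ θ → Option α)) (hD : Ins i D) (g : (κ ⊕ θ → Option α) → ℝ)
    (hg : ∀ x, g x ≤ 1)
    (hW : ∀ W : κ ⊕ θ → Option α ⊕ Fin M, Pr W → (∀ z, ev W z ∈ D) →
      ∑ z, g (ev W z) ≤ lam * nn (Option α) (Fin M))
    (hsub : ∀ E : Finset (κ → Option α), Ins i E → ρ / 2 ≤ dn E → HasSub (Fin M) E)
    (htile : ∀ E : Finset (θ → Option α), Ins i E → ∀ f : (θ → Option α) → ℝ, (∀ x, f x ≤ 1) →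
      (∀ W : θ → Option α ⊕ Fin M, Pr W → (∀ z, ev W z ∈ E) →
        ∑ z, f (ev W z) ≤ lam * nn (Option α) (Fin M)) →
      ∑ x ∈ E, f x ≤ (lam + c) * (E.card : ℝ) + ρ * nn (Option α) θ)
    (hDρ : ρ ≤ dn D) (β : ℝ) (hβ0 : 0 ≤ β)
    (hβ : β ≤ ρ / 2 / (Fintype.card (κ → Option α ⊕ Fin M) : ℝ) * nn (Option α) (Fin M) /
      nn (Option α) κ) :
    ∑ x ∈ D, g x ≤ (lam + c * (1 - β)) * (D.card : ℝ) + ρ * nn (Option α) (κ ⊕ θ) := by
  classical
  set L : ℝ := (Fintype.card (κ → Option α ⊕ Fin M) : ℝ) with hL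
  have hL0 : 0 < L := by
    rw [hL]
    exact Nat.cast_pos.2 (Fintype.card_pos_iff.2 ⟨fun _ => Sum.inl none⟩)
  have hnκ : 0 < nn (Option α) κ := nn_pos
  have hnθ : 0 < nn (Option α) θ := nn_pos
  have hnM : 0 < nn (Option α) (Fin M) := nn_pos
  have h1 := many (fun t => dn (secR D t)) (fun t => dn_le_one _) ρ hρ.le (by
    rw [dn_secR D]
    exact mul_le_mul_of_nonneg_right hDρ (Nat.cast_nonneg _))
  set T := univ.filter fun t : θ → Option α => ρ / 2 ≤ dn (secR D t) with hT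
  have hnθ' : (Fintype.card (θ → Option α) : ℝ) = nn (Option α) θ := rfl
  rw [hnθ'] at h1
  have hins : ∀ t, Ins i (secR D t) := by
    intro t x y hxy hx
    have hx' := (mem_filter.1 hx).2
    refine mem_filter.2 ⟨mem_univ _, hD _ _ (fun k => ?_) hx'⟩
    rcases k with k | k
    · exact hxy k
    · exact Or.inl rfl
  have hex : ∀ t ∈ T, ∃ W : κ → Option α ⊕ Fin M, Pr W ∧ ∀ z, ev W z ∈ secR D t := by
    intro t ht
    exact hsub _ (hins t) (mem_filter.1 ht).2
  let φ : (θ → Option α) → (κ → Option α ⊕ Fin M) := fun t =>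
    if h : ∃ W : κ → Option α ⊕ Fin M, Pr W ∧ ∀ z, ev W z ∈ secR D t then h.choose else
      fun _ => Sum.inl none
  have hφ : ∀ t ∈ T, Pr (φ t) ∧ ∀ z, ev (φ t) z ∈ secR D t := by
    intro t ht
    have h := hex t ht
    simp only [φ, dif_pos h]
    exact h.choose_spec
  have : Nonempty (κ → Option α ⊕ Fin M) := ⟨fun _ => Sum.inl none⟩
  obtain ⟨W, hWc⟩ := pig T φ
  rw [← hL] at hWc
  set B := univ.filter fun t : θ → Option α => ∀ z, ev W z ∈ secR D t with hB
  have hsubB : (T.filter fun t => φ t = W) ⊆ B := by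
    intro t ht
    obtain ⟨ht1, ht2⟩ := mem_filter.1 ht
    refine mem_filter.2 ⟨mem_univ _, ?_⟩
    rw [← ht2]
    exact (hφ t ht1).2
  have hTpos : 0 < (T.card : ℝ) := lt_of_lt_of_le (mul_pos (by linarith) hnθ) h1
  have hcard : ((T.filter fun t => φ t = W).card : ℝ) ≤ (B.card : ℝ) := by
    exact_mod_cast Finset.card_le_card hsubB
  have hne : 0 < ((T.filter fun t => φ t = W).card : ℝ) := by
    by_contra hcon
    have h2 : ((T.filter fun t => φ t = W).card : ℝ) = 0 :=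
      le_antisymm (not_lt.1 hcon) (Nat.cast_nonneg _)
    rw [h2, mul_zero] at hWc
    linarith
  have hPr : Pr W := by
    have h2 : 0 < (T.filter fun t => φ t = W).card := by exact_mod_cast hne
    obtain ⟨t, ht⟩ := Finset.card_pos.1 h2
    obtain ⟨ht1, ht2⟩ := mem_filter.1 ht
    rw [← ht2]
    exact (hφ t ht1).1
  have hBcard : ρ / 2 * nn (Option α) θ ≤ L * (B.card : ℝ) :=
    h1.trans (hWc.trans (mul_le_mul_of_nonneg_left hcard hL0.le))
  have hBD : ∀ t ∈ B, ∀ z, Sum.elim (ev W z) t ∈ D := by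
    intro t ht z
    exact (mem_filter.1 ((mem_filter.1 ht).2 z)).2
  have hBi : Ins i B := by
    intro t t' htt ht
    refine mem_filter.2 ⟨mem_univ _, fun z => mem_filter.2 ⟨mem_univ _, ?_⟩⟩
    refine hD _ _ (fun k => ?_) (hBD t ht z)
    rcases k with k | k
    · exact Or.inl rfl
    · exact htt k
  let R : (κ → Option α) → Finset (θ → Option α) := fun x =>
    univ.filter fun t => Sum.elim x t ∈ D ∧ ¬ ((∃ z, ev W z = x) ∧ t ∈ B)
  have hR : ∀ x t, t ∈ R x ↔ Sum.elim x t ∈ D ∧ ¬ ((∃ z, ev W z = x) ∧ t ∈ B) := by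
    intro x t
    simp only [R, mem_filter, mem_univ, true_and]
  have hRi : ∀ x, Ins i (R x) := by
    intro x t t' htt ht
    rw [hR] at ht ⊢
    refine ⟨hD _ _ (fun k => ?_) ht.1, fun h => ht.2 ⟨h.1, hBi t' t (fun k => ?_) h.2⟩⟩
    · rcases k with k | k
      · exact Or.inl rfl
      · exact htt k
    · rcases htt k with h | h
      · exact Or.inl h.symm
      · exact Or.inr ⟨h.2, h.1⟩
  have hRt : ∀ x, ∑ t ∈ R x, g (Sum.elim x t) ≤ (lam + c) * ((R x).card : ℝ) + ρ * nn (Option α) θ := by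
    intro x
    refine htile (R x) (hRi x) (fun t => g (Sum.elim x t)) (fun t => hg _) ?_
    intro U hU hUR
    have hev : ∀ z, ev (Sum.elim (fun k => Sum.inl (x k)) U : κ ⊕ θ → Option α ⊕ Fin M) z =
        Sum.elim x (ev U z) := by
      intro z
      funext k
      cases k <;> rfl
    have h2 := hW (Sum.elim (fun k => Sum.inl (x k)) U) (by
      intro e
      obtain ⟨k, hk⟩ := hU e
      exact ⟨Sum.inr k, hk⟩) (by
      intro z
      rw [hev]
      exact ((hR x _).1 (hUR z)).1)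
    refine le_trans (le_of_eq ?_) h2
    exact Finset.sum_congr rfl fun z _ => by rw [hev]
  have hBs : ∑ t ∈ B, ∑ z, g (Sum.elim (ev W z) t) ≤ (B.card : ℝ) * (lam * nn (Option α) (Fin M)) := by
    rw [← nsmul_eq_mul, ← Finset.sum_const]
    refine Finset.sum_le_sum fun t ht => ?_
    have hev : ∀ z, ev (Sum.elim W (fun k => Sum.inl (t k)) : κ ⊕ θ → Option α ⊕ Fin M) z =
        Sum.elim (ev W z) t := by
      intro z
      funext k
      cases k <;> rfl
    have h2 := hW (Sum.elim W (fun k => Sum.inl (t k))) (by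
      intro e
      obtain ⟨k, hk⟩ := hPr e
      exact ⟨Sum.inl k, hk⟩) (by
      intro z
      rw [hev]
      exact hBD t ht z)
    refine le_trans (le_of_eq ?_) h2
    exact Finset.sum_congr rfl fun z _ => by rw [hev]
  have e1 := tl_dec D W hPr B hBD R hR g
  have e2 := tl_dec D W hPr B hBD R hR (fun _ => 1)
  have e3 : ∑ x ∈ D, (1 : ℝ) = (D.card : ℝ) := by simp
  have e4 : ∑ x : κ → Option α, ∑ t ∈ R x, (1 : ℝ) = ∑ x : κ → Option α, ((R x).card : ℝ) := by
    refine Finset.sum_congr rfl fun x _ => by simp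
  have e5 : ∑ t ∈ B, ∑ z : Fin M → Option α, (1 : ℝ) = (B.card : ℝ) * nn (Option α) (Fin M) := by
    unfold nn
    simp
  rw [e3, e4, e5] at e2
  have e6 : ∑ x, ∑ t ∈ R x, g (Sum.elim x t) ≤
      (lam + c) * ∑ x : κ → Option α, ((R x).card : ℝ) + ρ * nn (Option α) (κ ⊕ θ) := by
    refine (Finset.sum_le_sum fun x _ => hRt x).trans (le_of_eq ?_)
    rw [Finset.sum_add_distrib, ← Finset.mul_sum, Finset.sum_const, nsmul_eq_mul, nn_split]
    unfold nn
    rw [Finset.card_univ]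
    ring
  have e7 : β * (D.card : ℝ) ≤ (B.card : ℝ) * nn (Option α) (Fin M) := by
    have hDn : (D.card : ℝ) ≤ nn (Option α) κ * nn (Option α) θ := by
      rw [← nn_split]
      exact tl_card_le D
    have a1 : β * (D.card : ℝ) ≤ β * (nn (Option α) κ * nn (Option α) θ) :=
      mul_le_mul_of_nonneg_left hDn hβ0
    have a2 : β * (nn (Option α) κ * nn (Option α) θ) ≤
        (ρ / 2 / L * nn (Option α) (Fin M) / nn (Option α) κ) * (nn (Option α) κ * nn (Option α) θ) :=
      mul_le_mul_of_nonneg_right hβ (mul_pos hnκ hnθ).le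
    have a3 : (ρ / 2 / L * nn (Option α) (Fin M) / nn (Option α) κ) *
        (nn (Option α) κ * nn (Option α) θ) = (ρ / 2 * nn (Option α) θ) * nn (Option α) (Fin M) / L := by
      field_simp
    have a4 : (ρ / 2 * nn (Option α) θ) * nn (Option α) (Fin M) / L ≤
        (L * (B.card : ℝ)) * nn (Option α) (Fin M) / L := by
      have := mul_le_mul_of_nonneg_right hBcard hnM.le
      exact div_le_div_of_nonneg_right this hL0.le
    have a5 : (L * (B.card : ℝ)) * nn (Option α) (Fin M) / L = (B.card : ℝ) * nn (Option α) (Fin M) := by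
      field_simp
    linarith
  have e8 : c * (β * (D.card : ℝ)) ≤ c * ((B.card : ℝ) * nn (Option α) (Fin M)) :=
    mul_le_mul_of_nonneg_left e7 hc
  rw [e1]
  have e9 : ∑ x : κ → Option α, ((R x).card : ℝ) =
      (D.card : ℝ) - (B.card : ℝ) * nn (Option α) (Fin M) := by linarith
  rw [e9] at e6
  nlinarith [e6, hBs, e8]

theorem tileP_step (α : Type) [Fintype α] [DecidableEq α] [Nonempty α]
    (hα : ∀ δ : ℝ, 0 < δ → DHJ α δ) (M : ℕ) (ρ : ℝ) (hρ : 0 < ρ) :
    ∃ β : ℝ, 0 < β ∧ β ≤ 1 ∧ ∀ c : ℝ, 0 ≤ c → TileP α M ρ c → TileP α M ρ (c * (1 - β)) := by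
  classical
  obtain ⟨n₁, hn₁⟩ := ins_sub α hα M (ρ / 2) (by linarith)
  have hL0 : 0 < (Fintype.card (Fin n₁ → Option α ⊕ Fin M) : ℝ) :=
    Nat.cast_pos.2 (Fintype.card_pos_iff.2 ⟨fun _ => Sum.inl none⟩)
  have hnκ : 0 < nn (Option α) (Fin n₁) := nn_pos
  have hnM : 0 < nn (Option α) (Fin M) := nn_pos
  refine ⟨min 1 (ρ / 2 / (Fintype.card (Fin n₁ → Option α ⊕ Fin M) : ℝ) * nn (Option α) (Fin M) /
      nn (Option α) (Fin n₁)), ?_, min_le_left _ _, fun c hc hT => ?_⟩
  · refine lt_min one_pos ?_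
    positivity
  set β : ℝ := min 1 (ρ / 2 / (Fintype.card (Fin n₁ → Option α ⊕ Fin M) : ℝ) *
    nn (Option α) (Fin M) / nn (Option α) (Fin n₁)) with hβ
  have hβ0 : 0 ≤ β := le_min zero_le_one (by positivity)
  have hβ1 : β ≤ 1 := min_le_left _ _
  obtain ⟨N₂, hN₂⟩ := hT
  refine ⟨n₁ + N₂, fun ι _ _ hι i D hD g hg lam hlam hW => ?_⟩
  obtain ⟨θ, fθ, dθ, e, hθ⟩ := split_type (κ := Fin n₁) (ι := ι) N₂ (by
    rw [Fintype.card_fin]
    exact hι)
  have hcard0 : (0 : ℝ) ≤ (D.card : ℝ) := Nat.cast_nonneg _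
  by_cases hρD : ρ ≤ dn D
  · let D' : Finset (Fin n₁ ⊕ θ → Option α) := univ.filter fun x => (fun k => x (e.symm k)) ∈ D
    have hbij : ∀ f : (ι → Option α) → ℝ,
        ∑ x ∈ D, f x = ∑ x ∈ D', f (fun k => x (e.symm k)) := by
      intro f
      symm
      refine Finset.sum_bij (fun x _ k => x (e.symm k)) ?_ ?_ ?_ ?_
      · intro x hx
        exact (Finset.mem_filter.1 hx).2
      · intro x _ y _ h
        funext k
        have := congrFun h (e k)
        simpa using this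
      · intro y hy
        refine ⟨fun k => y (e k), ?_, ?_⟩
        · simp only [D', mem_filter, mem_univ, true_and, Equiv.apply_symm_apply]
          exact hy
        · funext k
          simp
      · intro x _
        rfl
    have hcardD : (D'.card : ℝ) = (D.card : ℝ) := by
      have h := hbij fun _ => 1
      simpa using h.symm
    have hnn : nn (Option α) ι = nn (Option α) (Fin n₁ ⊕ θ) := by
      unfold nn
      exact congrArg _ (Fintype.card_congr (Equiv.arrowCongr e.symm (Equiv.refl (Option α))))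
    have hdn : ρ ≤ dn D' := by
      have h2 : dn D' = dn D := dn_reidx e D
      rw [h2]
      exact hρD
    have hD' : Ins i D' := by
      intro x y hxy hx
      refine mem_filter.2 ⟨mem_univ _, hD _ _ (fun k => hxy (e.symm k)) (mem_filter.1 hx).2⟩
    have key := tl_core α M ρ c lam hρ hc (Fin n₁) θ i D' hD' (fun x => g (fun k => x (e.symm k)))
      (fun x => hg _) (by
        intro W hPr hWD
        have h2 := hW (fun k => W (e.symm k)) (by
          intro d
          obtain ⟨k, hk⟩ := hPr d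
          exact ⟨e k, by simpa using hk⟩) (by
          intro z
          exact (mem_filter.1 (hWD z)).2)
        exact h2)
      (fun E hE hEd => hn₁ (Fin n₁) (by simp) i E hE hEd)
      (fun E hE f hf hfW => hN₂ θ hθ i E hE f hf lam hlam hfW)
      hdn β hβ0 (min_le_right _ _)
    rw [hbij g, hnn, ← hcardD]
    exact key
  · have h1 : ∑ x ∈ D, g x ≤ (D.card : ℝ) := by
      calc ∑ x ∈ D, g x ≤ ∑ x ∈ D, (1 : ℝ) := Finset.sum_le_sum fun x _ => hg x
        _ = (D.card : ℝ) := by simp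
    have hnι : 0 < nn (Option α) ι := nn_pos
    have h2 : (D.card : ℝ) ≤ ρ * nn (Option α) ι := by
      have h3 : (D.card : ℝ) / nn (Option α) ι < ρ := not_le.1 hρD
      exact ((div_lt_iff₀ hnι).1 h3).le
    have h4 : 0 ≤ (lam + c * (1 - β)) * (D.card : ℝ) := by
      refine mul_nonneg (add_nonneg hlam (mul_nonneg hc (by linarith))) hcard0
    linarith

end Pool.SZ
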